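import Mathlib
import Pool.Agent.H81.HC.Stm
import Pool.Agent.H81.HC.Basic

/-!
# The fold coordinate
-/

open Set Filter Topology MeasureTheory
open scoped ContDiff

namespace Pool.Agent.H81.HC.T.FOLD

open Pool.Agent.H81.HC

lemma D2_eq {f : ℝ × ℝ → ℝ} {s t d : ℝ} (hf : DifferentiableAt ℝ f (s, t))
    (h : HasDerivAt (fun t => f (s, t)) d t) : D2 f (s, t) = d :=
  (hasDerivAt_snd hf).unique h

/-- composition with `s ↦ (s, 0)` -/
lemma ev_line {P : ℝ × ℝ → Prop} (h : ∀ᶠ y in 𝓝 (0 : ℝ × ℝ), P y) :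
    ∀ᶠ s in 𝓝 (0 : ℝ), P (s, 0) := by
  have h1 : Tendsto (fun s : ℝ => (s, (0 : ℝ))) (𝓝 0) (𝓝 (0 : ℝ × ℝ)) := by
    have : Continuous (fun s : ℝ => (s, (0 : ℝ))) := by fun_prop
    exact this.tendsto' 0 0 rfl
  exact h1.eventually h

lemma ev_fst {P : ℝ → Prop} (h : ∀ᶠ s in 𝓝 (0 : ℝ), P s) :
    ∀ᶠ y in 𝓝 (0 : ℝ × ℝ), P y.1 := by
  have h1 : Tendsto (fun y : ℝ × ℝ => y.1) (𝓝 0) (𝓝 (0 : ℝ)) := continuous_fst.tendsto' 0 0 rfl
  exact h1.eventually h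

/-- `D2` of a product `w * G` -/
lemma D2_mul_snd {G : ℝ × ℝ → ℝ} {x : ℝ × ℝ} (hG : DifferentiableAt ℝ G x) :
    D2 (fun p : ℝ × ℝ => p.2 * G p) x = G x + x.2 * D2 G x := by
  obtain ⟨s, t⟩ := x
  refine D2_eq (differentiableAt_snd.mul hG) ?_
  have h1 : HasDerivAt (fun t : ℝ => t * G (s, t)) (1 * G (s, t) + t * D2 G (s, t)) t :=
    (hasDerivAt_id' t).mul (hasDerivAt_snd hG)
  simpa using h1

/-- division by `w` a second time -/
theorem main (hFIB : S_FIB) (hHAD : S_HAD) : S_FOLD := by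
  intro U hU hU1 hU2
  -- the critical curve
  obtain ⟨W, hW, hW0, hWT, -, -⟩ := hFIB (D2 U) hU.D2 hU1 hU2
  set c : ℝ → ℝ := fun s => W (s, 0) with hc
  have hcs : Sm c 0 := by
    have h1 : Sm (fun s : ℝ => (s, (0 : ℝ))) 0 := (Sm.id 0).prodMk (Sm.const 0 0)
    exact Sm.comp (g := W) (f := fun s : ℝ => (s, (0 : ℝ))) hW h1
  have hc0 : c 0 = 0 := hW0
  have hcrit : ∀ᶠ s in 𝓝 (0 : ℝ), D2 U (s, c s) = 0 := ev_line hWT
  -- smooth germ `c ∘ fst`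
  have hcf : Sm (fun p : ℝ × ℝ => c p.1) 0 := Sm.comp (g := c) (f := fun p : ℝ × ℝ => p.1)
    (by simpa using hcs) (Sm.fst 0)
  set F : ℝ × ℝ → ℝ := fun p => U (p.1, c p.1 + p.2) - U (p.1, c p.1) with hF
  have hin1 : Sm (fun p : ℝ × ℝ => (p.1, c p.1 + p.2)) 0 := (Sm.fst 0).prodMk (hcf.add (Sm.snd 0))
  have hin2 : Sm (fun p : ℝ × ℝ => (p.1, c p.1)) 0 := (Sm.fst 0).prodMk hcf
  have hUa : Sm (fun p : ℝ × ℝ => U (p.1, c p.1 + p.2)) 0 := by
    refine Sm.comp (g := U) (f := fun p : ℝ × ℝ => (p.1, c p.1 + p.2)) ?_ hin1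
    show Sm U (0, c 0 + 0)
    rw [hc0, add_zero]; exact hU
  have hUb : Sm (fun p : ℝ × ℝ => U (p.1, c p.1)) 0 := by
    refine Sm.comp (g := U) (f := fun p : ℝ × ℝ => (p.1, c p.1)) ?_ hin2
    show Sm U (0, c 0)
    rw [hc0]; exact hU
  have hFs : Sm F 0 := hUa.sub hUb
  obtain ⟨F1, hF1s, hF1⟩ := hHAD F hFs (Eventually.of_forall fun s => by simp [hF])
  -- `D2 F`
  have hUdiff : ∀ᶠ p in 𝓝 (0 : ℝ × ℝ), DifferentiableAt ℝ U (p.1, c p.1 + p.2) := by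
    have h1 : Tendsto (fun p : ℝ × ℝ => (p.1, c p.1 + p.2)) (𝓝 0) (𝓝 (0 : ℝ × ℝ)) := by
      have h0 : (((0 : ℝ × ℝ).1, c (0 : ℝ × ℝ).1 + (0 : ℝ × ℝ).2) : ℝ × ℝ) = 0 := by
        show ((0 : ℝ), c 0 + 0) = 0
        rw [hc0, add_zero]; rfl
      have h2 := hin1.continuousAt.tendsto
      rwa [h0] at h2
    exact h1.eventually hU.ev_differentiableAt
  have hD2F : ∀ᶠ p in 𝓝 (0 : ℝ × ℝ), D2 F p = D2 U (p.1, c p.1 + p.2) := by
    filter_upwards [hUdiff, hFs.ev_differentiableAt] with p hp hp'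
    obtain ⟨s, t⟩ := p
    refine D2_eq hp' ?_
    have h1 : HasDerivAt (fun t => U (s, c s + t)) (D2 U (s, c s + t)) t := by
      have h2 := hasDerivAt_pair (f := U) (g := fun _ : ℝ => s) (h := fun t => c s + t) (t := t)
        hp (hasDerivAt_const t s) ((hasDerivAt_id t).const_add (c s))
      simpa using h2
    simpa [hF] using h1.sub_const (U (s, c s))
  have hD2F' : ∀ᶠ p in 𝓝 (0 : ℝ × ℝ), D2 F p = F1 p + p.2 * D2 F1 p := by
    filter_upwards [D2_congr hF1, hF1s.ev_differentiableAt] with p hp hp'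
    rw [hp, D2_mul_snd hp']
  have hF10 : ∀ᶠ s in 𝓝 (0 : ℝ), F1 (s, 0) = 0 := by
    filter_upwards [ev_line hD2F, ev_line hD2F', hcrit] with s h1 h2 h3
    rw [h1] at h2
    simp only [add_zero, zero_mul] at h2
    rw [← h2, h3]
  obtain ⟨F2, hF2s, hF2⟩ := hHAD F1 hF1s hF10
  -- the value `F2 0`
  have hD2F1 : D2 F1 0 = F2 0 := by
    have h1 := (D2_congr hF2).self_of_nhds
    rw [h1, D2_mul_snd hF2s.differentiableAt]
    simp
  have hDD : D2 (D2 F) 0 = 2 * F2 0 := by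
    have h1 := (D2_congr hD2F').self_of_nhds
    rw [h1]
    have hd1 : DifferentiableAt ℝ F1 0 := hF1s.differentiableAt
    have hd2 : DifferentiableAt ℝ (D2 F1) 0 := hF1s.D2.differentiableAt
    have h2 : D2 (fun p : ℝ × ℝ => F1 p + p.2 * D2 F1 p) 0 = D2 F1 0 + D2 F1 0 := by
      have h3 : HasDerivAt (fun t : ℝ => F1 (0, t)) (D2 F1 (0, 0)) 0 := hasDerivAt_snd hd1
      have h4 : HasDerivAt (fun t : ℝ => D2 F1 (0, t)) (D2 (D2 F1) (0, 0)) 0 := hasDerivAt_snd hd2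
      have h5 : HasDerivAt (fun t : ℝ => F1 (0, t) + t * D2 F1 (0, t))
          (D2 F1 (0, 0) + (1 * D2 F1 (0, 0) + 0 * D2 (D2 F1) (0, 0))) 0 :=
        h3.add ((hasDerivAt_id' (0 : ℝ)).mul h4)
      have h6 : DifferentiableAt ℝ (fun p : ℝ × ℝ => F1 p + p.2 * D2 F1 p) ((0 : ℝ), (0 : ℝ)) :=
        DifferentiableAt.add hd1 (differentiableAt_snd.mul hd2)
      have h7 := D2_eq h6 h5
      rw [one_mul, zero_mul, add_zero] at h7
      exact h7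
    rw [h2, hD2F1]; ring
  have hDD' : D2 (D2 F) 0 = D2 (D2 U) 0 := by
    have h1 := (D2_congr hD2F).self_of_nhds
    rw [h1]
    have hd : DifferentiableAt ℝ (D2 U) ((0 : ℝ), c 0 + 0) := by
      rw [hc0, add_zero]; exact hU.D2.differentiableAt
    have h2 := hasDerivAt_pair (f := D2 U) (g := fun _ : ℝ => (0 : ℝ)) (h := fun t => c 0 + t)
      (t := 0) hd (hasDerivAt_const 0 0) ((hasDerivAt_id (0 : ℝ)).const_add (c 0))
    have hd' : DifferentiableAt ℝ (fun p : ℝ × ℝ => D2 U (p.1, c p.1 + p.2)) ((0 : ℝ), (0 : ℝ)) := by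
      have : Sm (fun p : ℝ × ℝ => D2 U (p.1, c p.1 + p.2)) 0 := by
        refine Sm.comp (g := D2 U) (f := fun p : ℝ × ℝ => (p.1, c p.1 + p.2)) ?_ hin1
        show Sm (D2 U) (0, c 0 + 0)
        rw [hc0, add_zero]; exact hU.D2
      exact this.differentiableAt
    have h3 := D2_eq hd' h2
    rw [hc0, add_zero, mul_zero, zero_add, mul_one] at h3
    exact h3
  have hF20 : F2 0 ≠ 0 := by
    intro h0
    apply hU2
    rw [← hDD', hDD, h0, mul_zero]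
  -- the sign
  obtain ⟨ε, hε, hpos⟩ : ∃ ε : ℝ, (ε = 1 ∨ ε = -1) ∧ 0 < ε * F2 0 := by
    rcases lt_or_gt_of_ne hF20 with h | h
    · exact ⟨-1, Or.inr rfl, by linarith⟩
    · exact ⟨1, Or.inl rfl, by linarith⟩
  have hεε : ε * ε = 1 := by rcases hε with h | h <;> simp [h]
  have hgs : Sm (fun p => √(ε * F2 p)) 0 := ((Sm.const ε 0).mul hF2s).sqrt hpos.ne'
  set T : ℝ × ℝ → ℝ := fun p => p.2 * √(ε * F2 p) with hT
  have hTs : Sm T 0 := (Sm.snd 0).mul hgs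
  have hT0 : T 0 = 0 := by simp [hT]
  have hDT : D2 T 0 = √(ε * F2 0) := by
    rw [hT, D2_mul_snd hgs.differentiableAt]
    simp
  have hDT0 : D2 T 0 ≠ 0 := by rw [hDT]; exact (Real.sqrt_pos.2 hpos).ne'
  obtain ⟨w, hw, hw0, hwT, -, hDw⟩ := hFIB T hTs hT0 hDT0
  have hin3 : Tendsto (fun p : ℝ × ℝ => (p.1, w p)) (𝓝 0) (𝓝 (0 : ℝ × ℝ)) := by
    have h2 := ((Sm.fst (0 : ℝ × ℝ)).prodMk hw).continuousAt.tendsto
    have h0 : (((0 : ℝ × ℝ).1, w 0) : ℝ × ℝ) = 0 := by rw [hw0]; rfl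
    rwa [h0] at h2
  have hposev : ∀ᶠ p in 𝓝 (0 : ℝ × ℝ), 0 < ε * F2 p := by
    have h1 : ContinuousAt (fun p => ε * F2 p) 0 := hF2s.continuousAt.const_mul ε |>.congr
      (Eventually.of_forall fun _ => rfl)
    exact h1.eventually (lt_mem_nhds hpos)
  refine ⟨fun s => U (s, c s), fun p => c p.1 + w p, ε, hε, ?_, hcf.add hw, ?_, ?_, ?_⟩
  · refine Sm.comp (g := U) (f := fun s : ℝ => (s, c s)) ?_ ((Sm.id 0).prodMk hcs)
    show Sm U (0, c 0)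
    rw [hc0]; exact hU
  · simp [hc0, hw0]
  · have h1 : D2 (fun p : ℝ × ℝ => c p.1 + w p) 0 = D2 w 0 := by
      have h2 : DifferentiableAt ℝ (fun p : ℝ × ℝ => c p.1 + w p) ((0 : ℝ), (0 : ℝ)) :=
        (hcf.add hw).differentiableAt
      have h3 : HasDerivAt (fun t : ℝ => w (0, t)) (D2 w (0, 0)) 0 :=
        hasDerivAt_snd hw.differentiableAt
      exact D2_eq h2 (h3.const_add (c 0))
    rw [h1, hDw]
    exact inv_ne_zero hDT0
  · filter_upwards [hwT, hin3.eventually hF1, hin3.eventually hF2, hin3.eventually hposev]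
      with p h1 h2 h3 h4
    have h5 : F (p.1, w p) = w p * (w p * F2 (p.1, w p)) := by rw [h2, h3]
    have h6 : U (p.1, c p.1 + w p) - U (p.1, c p.1) = w p * (w p * F2 (p.1, w p)) := h5
    have h7 : w p * √(ε * F2 (p.1, w p)) = p.2 := h1
    have h8 : p.2 ^ 2 = w p ^ 2 * (ε * F2 (p.1, w p)) := by
      rw [← h7, mul_pow, Real.sq_sqrt h4.le]
    have h9 : ε * p.2 ^ 2 = w p ^ 2 * F2 (p.1, w p) := by
      rw [h8]
      linear_combination (w p ^ 2 * F2 (p.1, w p)) * hεε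
    show U (p.1, c p.1 + w p) = U (p.1, c p.1) + ε * p.2 ^ 2
    rw [h9]
    linear_combination h6

end Pool.Agent.H81.HC.T.FOLD
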