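import Pool.Agent.H81.HC.Basic

/-! HC-GER: from compactly supported functions to germs. -/

open Set Filter Topology MeasureTheory
open scoped ContDiff

namespace Pool.Agent.H81.HC.T.GER

theorem main (hW : S_WHI) : S_GER := by
  intro φ hφ
  obtain ⟨r, hr, hball⟩ := Metric.eventually_nhds_iff_ball.1 hφ
  let b : ContDiffBump (0 : ℝ × ℝ) := ⟨r / 4, r / 2, by positivity, by linarith⟩
  have hΦ : ContDiff ℝ ∞ (fun x => b x * φ x) := by
    rw [contDiff_iff_contDiffAt]
    intro x
    by_cases hx : x ∈ Metric.ball (0 : ℝ × ℝ) r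
    · exact b.contDiffAt.mul (hball x hx)
    · have h1 : x ∉ tsupport b := by
        rw [b.tsupport_eq]
        intro h
        apply hx
        have h2 : b.rOut = r / 2 := rfl
        rw [Metric.mem_closedBall, h2] at h
        rw [Metric.mem_ball]
        linarith
      have : (fun x => b x * φ x) =ᶠ[𝓝 x] fun _ => 0 := by
        filter_upwards [(isClosed_tsupport b).isOpen_compl.mem_nhds h1] with y hy
        rw [image_eq_zero_of_notMem_tsupport hy, zero_mul]
      exact contDiffAt_const.congr_of_eventuallyEq this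
  obtain ⟨A, B, hA, hB, hAB⟩ := hW _ hΦ (b.hasCompactSupport.mul_right)
  refine ⟨A, B, Sm.of_contDiff hA _, Sm.of_contDiff hB _, ?_⟩
  filter_upwards [b.eventuallyEq_one] with p hp
  have := hAB p.1 p.2
  simp only [Prod.mk.eta] at this
  rw [← this, hp]
  simp

end Pool.Agent.H81.HC.T.GER
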