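import Pool.Agent.H81.HC.Basic

/-! # HC-HAD: Hadamard's lemma with a parameter -/

set_option autoImplicit false

open Set Filter Topology MeasureTheory
open scoped ContDiff Convolution

namespace Pool.Agent.H81.HC.T.HAD

noncomputable section

/-- a germ is the germ of a smooth function with compact support -/
theorem exists_cutoff {φ : ℝ × ℝ → ℝ} (h : Sm φ 0) :
    ∃ ψ : ℝ × ℝ → ℝ, ContDiff ℝ ∞ ψ ∧ HasCompactSupport ψ ∧ ∀ᶠ x in 𝓝 (0 : ℝ × ℝ), ψ x = φ x := by
  obtain ⟨r, hr, hball⟩ := Metric.eventually_nhds_iff_ball.1 h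
  let f : ContDiffBump (0 : ℝ × ℝ) := ⟨r / 4, r / 2, by positivity, by linarith⟩
  refine ⟨fun x => f x * φ x, ?_, f.hasCompactSupport.mul_right, ?_⟩
  · rw [contDiff_iff_contDiffAt]
    intro x
    by_cases hx : x ∈ Metric.ball (0 : ℝ × ℝ) r
    · exact f.contDiff.contDiffAt.mul (hball x hx)
    · have hx' : x ∈ (tsupport f)ᶜ := by
        rw [f.tsupport_eq]
        intro hc
        apply hx
        have h1 : dist x 0 ≤ r / 2 := Metric.mem_closedBall.1 hc
        rw [Metric.mem_ball]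
        linarith
      have hev : (fun x => f x * φ x) =ᶠ[𝓝 x] fun _ => 0 := by
        filter_upwards [(isClosed_tsupport f).isOpen_compl.mem_nhds hx'] with y hy
        rw [image_eq_zero_of_notMem_tsupport hy, zero_mul]
      exact contDiffAt_const.congr_of_eventuallyEq hev
  · have : f =ᶠ[𝓝 (0 : ℝ × ℝ)] 1 := f.eventuallyEq_one
    filter_upwards [this] with x hx
    rw [hx]
    simp

/-- smoothness of `(a, t) ↦ ∫ u in 0..1, H (a, u t)` -/
theorem contDiff_param {H : ℝ × ℝ → ℝ} (hH : ContDiff ℝ ∞ H) :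
    ContDiff ℝ ∞ (fun p : ℝ × ℝ => ∫ u in (0 : ℝ)..1, H (p.1, u * p.2)) := by
  -- a cut off function, equal to `1` on `[-1, 0]`
  let χ : ContDiffBump (0 : ℝ) := ⟨1, 2, by norm_num, by norm_num⟩
  let g : ℝ × ℝ → ℝ → ℝ := fun p y => χ y * H (p.1, -y * p.2)
  let f : ℝ → ℝ := (Ioc (0 : ℝ) 1).indicator fun _ => 1
  have hg : ContDiff ℝ ∞ (Function.uncurry g) := by
    have h1 : ContDiff ℝ ∞ (fun q : (ℝ × ℝ) × ℝ => χ q.2) := χ.contDiff.comp contDiff_snd
    have h2 : ContDiff ℝ ∞ (fun q : (ℝ × ℝ) × ℝ => H (q.1.1, -q.2 * q.1.2)) := by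
      refine hH.comp ?_
      exact (contDiff_fst.comp contDiff_fst).prodMk
        (contDiff_snd.neg.mul (contDiff_snd.comp contDiff_fst))
    exact h1.mul h2
  have hf : LocallyIntegrable f volume := by
    have : Integrable f volume := by
      refine (integrable_indicator_iff measurableSet_Ioc).2 ?_
      exact integrableOn_const (by simp) (by simp)
    exact this.locallyIntegrable
  have hkey := contDiffOn_convolution_right_with_param_comp (n := ⊤) (μ := (volume : Measure ℝ))
    (ContinuousLinearMap.lsmul ℝ ℝ) (s := (univ : Set (ℝ × ℝ))) (v := fun _ => (0 : ℝ))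
    contDiffOn_const (f := f) (g := g) (k := tsupport χ) isOpen_univ χ.hasCompactSupport
    (fun p x _ hx => by
      simp only [g]
      rw [image_eq_zero_of_notMem_tsupport hx, zero_mul]) hf hg.contDiffOn
  rw [contDiffOn_univ] at hkey
  suffices h : (fun p : ℝ × ℝ => ∫ u in (0 : ℝ)..1, H (p.1, u * p.2)) =
      fun x => (f ⋆[ContinuousLinearMap.lsmul ℝ ℝ, volume] g x) 0 by
    rw [h]; exact hkey
  ext p
  rw [convolution_def]
  simp only [ContinuousLinearMap.lsmul_apply, zero_sub, smul_eq_mul]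
  rw [intervalIntegral.integral_of_le zero_le_one, ← integral_indicator measurableSet_Ioc]
  congr 1
  ext u
  simp only [f, g, Set.indicator]
  split_ifs with hu
  · have h1 : χ (-u) = 1 := by
      refine χ.one_of_mem_closedBall ?_
      rw [mem_closedBall_zero_iff, norm_neg, Real.norm_eq_abs, abs_of_pos hu.1]
      exact hu.2
    rw [h1, neg_neg, one_mul, one_mul]
  · rw [zero_mul]

theorem main : S_HAD := by
  intro F hF h0
  obtain ⟨ψ, hψ, -, hψF⟩ := exists_cutoff hF
  have hD2 : ContDiff ℝ ∞ (D2 ψ) := by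
    have h1 : ContDiff ℝ ∞ (fderiv ℝ ψ) := hψ.fderiv_right (by simp)
    exact h1.clm_apply contDiff_const
  refine ⟨fun p => ∫ u in (0 : ℝ)..1, D2 ψ (p.1, u * p.2), Sm.of_contDiff (contDiff_param hD2) 0, ?_⟩
  have h1 : ∀ᶠ p in 𝓝 (0 : ℝ × ℝ), F (p.1, 0) = 0 :=
    (continuous_fst.tendsto' (0 : ℝ × ℝ) (0 : ℝ) rfl).eventually h0
  have h2 : ∀ᶠ p in 𝓝 (0 : ℝ × ℝ), ψ (p.1, 0) = F (p.1, 0) :=
    ((Continuous.prodMk continuous_fst continuous_const).tendsto' (0 : ℝ × ℝ) (0 : ℝ × ℝ)
      rfl).eventually hψF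
  filter_upwards [hψF, h1, h2] with p hp hp1 hp2
  have hder : ∀ u ∈ uIcc (0 : ℝ) 1,
      HasDerivAt (fun u => ψ (p.1, u * p.2)) (p.2 * D2 ψ (p.1, u * p.2)) u := by
    intro u _
    have hh : HasDerivAt (fun u : ℝ => u * p.2) p.2 u := by
      simpa using (hasDerivAt_id u).mul_const p.2
    have := hasDerivAt_pair (f := ψ) (g := fun _ => p.1) (h := fun u : ℝ => u * p.2) (t := u)
      (hψ.contDiffAt.differentiableAt (by simp)) (hasDerivAt_const u p.1) hh
    convert this using 1
    ring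
  have hcont : Continuous (fun u : ℝ => p.2 * D2 ψ (p.1, u * p.2)) :=
    continuous_const.mul (hD2.continuous.comp (continuous_const.prodMk
      (continuous_id.mul continuous_const)))
  have := intervalIntegral.integral_eq_sub_of_hasDerivAt hder (hcont.intervalIntegrable 0 1)
  rw [intervalIntegral.integral_const_mul] at this
  simp only [one_mul, zero_mul] at this
  rw [this, hp2, hp1, sub_zero, ← hp]

end

end Pool.Agent.H81.HC.T.HAD
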