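import Pool.Agent.H81.HC.Basic

/-! HC-INT: smoothness of an oscillatory integral. -/

open Set Filter Topology MeasureTheory
open scoped ContDiff

namespace Pool.Agent.H81.HC.T.INT

noncomputable section

/-- continuous with all moments -/
def Mom (u : V2 → ℂ) : Prop :=
  Continuous u ∧ ∀ n : ℕ, Integrable (fun v => ‖v‖ ^ n * ‖u v‖)

lemma Mom.mul {u c : V2 → ℂ} (hu : Mom u) (hc : Continuous c) {C : ℝ} {m : ℕ}
    (h : ∀ v, ‖c v‖ ≤ C * ‖v‖ ^ m) : Mom (fun v => c v * u v) := by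
  refine ⟨hc.mul hu.1, fun n => ?_⟩
  refine ((hu.2 (n + m)).const_mul C).mono' ?_ (Eventually.of_forall fun v => ?_)
  · exact ((continuous_norm.pow n).mul (hc.mul hu.1).norm).aestronglyMeasurable
  · rw [norm_mul, norm_pow, norm_norm, norm_norm, norm_mul]
    calc ‖v‖ ^ n * (‖c v‖ * ‖u v‖) ≤ ‖v‖ ^ n * ((C * ‖v‖ ^ m) * ‖u v‖) := by
          gcongr
          exact h v
      _ = C * (‖v‖ ^ (n + m) * ‖u v‖) := by ring

lemma Mom.integrable {u : V2 → ℂ} (hu : Mom u) : Integrable (fun v => ‖u v‖) := by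
  simpa using hu.2 0

/-- the factor `e^{2 π i a v₀}` -/
def e (a : ℝ) (v : V2) : ℂ := Complex.exp (2 * Real.pi * Complex.I * a * v 0)

lemma norm_e (a : ℝ) (v : V2) : ‖e a v‖ = 1 := by
  unfold e
  rw [show (2 * Real.pi * Complex.I * a * v 0 : ℂ) = ((2 * Real.pi * a * v 0 : ℝ) : ℂ) * Complex.I by
    push_cast; ring]
  exact Complex.norm_exp_ofReal_mul_I _

lemma cont_coord (i : Fin 2) : Continuous fun v : V2 => v i := by fun_prop

lemma cont_e (a : ℝ) : Continuous (e a) := by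
  unfold e
  refine Complex.continuous_exp.comp ?_
  exact continuous_const.mul (Complex.continuous_ofReal.comp (cont_coord 0))

lemma hasDerivAt_e (a : ℝ) (v : V2) :
    HasDerivAt (fun a : ℝ => e a v) (2 * Real.pi * Complex.I * v 0 * e a v) a := by
  unfold e
  have h1 : HasDerivAt (fun a : ℝ => (2 * Real.pi * Complex.I * a * v 0 : ℂ))
      (2 * Real.pi * Complex.I * 1 * v 0) a :=
    (((hasDerivAt_id a).ofReal_comp).const_mul (2 * Real.pi * Complex.I : ℂ)).mul_const (v 0 : ℂ)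
  refine h1.cexp.congr_deriv ?_
  ring

variable {F : ℕ → ℝ → ℝ}

/-- integrand -/
def G (F : ℕ → ℝ → ℝ) (k : ℕ) (u : V2 → ℂ) (p : ℝ × ℝ) (v : V2) : ℂ :=
  e p.1 v * (F k ((2 * Real.pi * v 1) ^ 2 * p.2) : ℂ) * u v

lemma cont_G (hF : ∀ k z, HasDerivAt (F k) (F (k + 1) z) z) (k : ℕ) {u : V2 → ℂ}
    (hu : Continuous u) (p : ℝ × ℝ) : Continuous (G F k u p) := by
  unfold G
  have hFc : Continuous (F k) := continuous_iff_continuousAt.2 fun z => (hF k z).continuousAt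
  refine ((cont_e p.1).mul (Complex.continuous_ofReal.comp (hFc.comp ?_))).mul hu
  exact ((continuous_const.mul (cont_coord 1)).pow 2).mul continuous_const

lemma norm_G_le {k : ℕ} {M : ℝ} (hM : ∀ z, |F k z| ≤ M) (u : V2 → ℂ) (p : ℝ × ℝ) (v : V2) :
    ‖G F k u p v‖ ≤ M * ‖u v‖ := by
  unfold G
  rw [norm_mul, norm_mul, norm_e, one_mul, Complex.norm_real, Real.norm_eq_abs]
  gcongr
  exact hM _

/-- multipliers -/
def c0 (v : V2) : ℂ := 2 * Real.pi * Complex.I * v 0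
def c1 (v : V2) : ℂ := ((2 * Real.pi * v 1) ^ 2 : ℝ)

lemma cont_c0 : Continuous c0 := continuous_const.mul (Complex.continuous_ofReal.comp (cont_coord 0))
lemma cont_c1 : Continuous c1 :=
  Complex.continuous_ofReal.comp ((continuous_const.mul (cont_coord 1)).pow 2)

lemma norm_c0 (v : V2) : ‖c0 v‖ ≤ (2 * Real.pi) * ‖v‖ ^ 1 := by
  unfold c0
  rw [norm_mul, norm_mul, norm_mul, Complex.norm_I, Complex.norm_real, Complex.norm_real,
    Complex.norm_ofNat, Real.norm_of_nonneg Real.pi_pos.le, mul_one, pow_one]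
  gcongr
  exact PiLp.norm_apply_le v 0

lemma norm_c1 (v : V2) : ‖c1 v‖ ≤ (2 * Real.pi) ^ 2 * ‖v‖ ^ 2 := by
  unfold c1
  rw [Complex.norm_real, norm_pow, norm_mul, Real.norm_of_nonneg (by positivity), mul_pow]
  gcongr
  exact PiLp.norm_apply_le v 1

/-- derivative of the integrand, as a linear map -/
def G' (F : ℕ → ℝ → ℝ) (k : ℕ) (u : V2 → ℂ) (p : ℝ × ℝ) (v : V2) : ℝ × ℝ →L[ℝ] ℂ :=
  (ContinuousLinearMap.fst ℝ ℝ ℝ).smulRight (G F k (fun v => c0 v * u v) p v) +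
  (ContinuousLinearMap.snd ℝ ℝ ℝ).smulRight (G F (k + 1) (fun v => c1 v * u v) p v)

lemma hasFDerivAt_G (hF : ∀ k z, HasDerivAt (F k) (F (k + 1) z) z) (k : ℕ) (u : V2 → ℂ)
    (p : ℝ × ℝ) (v : V2) : HasFDerivAt (fun p => G F k u p v) (G' F k u p v) p := by
  have h1 : HasFDerivAt (fun p : ℝ × ℝ => e p.1 v) _ p :=
    ((hasDerivAt_e p.1 v).hasFDerivAt).comp p hasFDerivAt_fst
  have h3 : HasDerivAt (fun t : ℝ => (F k ((2 * Real.pi * v 1) ^ 2 * t) : ℂ))
      (((F (k + 1) ((2 * Real.pi * v 1) ^ 2 * p.2) * ((2 * Real.pi * v 1) ^ 2 * 1) : ℝ)) : ℂ) p.2 :=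
    ((hF k _).comp p.2 ((hasDerivAt_id p.2).const_mul ((2 * Real.pi * v 1) ^ 2))).ofReal_comp
  have h2 : HasFDerivAt (fun p : ℝ × ℝ => (F k ((2 * Real.pi * v 1) ^ 2 * p.2) : ℂ)) _ p :=
    (h3.hasFDerivAt).comp p hasFDerivAt_snd
  have h4 := (h1.mul h2).mul_const (u v)
  refine h4.congr_fderiv ?_
  ext1 <;> ext1
  · simp [G', G, c0]
    ring
  · simp [G', G, c1]
    ring

lemma hasFDerivAt_int (hF : ∀ k z, HasDerivAt (F k) (F (k + 1) z) z)
    (hb : ∀ k, ∃ M, ∀ z, |F k z| ≤ M) (k : ℕ) {u : V2 → ℂ} (hu : Mom u) (p : ℝ × ℝ) :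
    HasFDerivAt (fun p => ∫ v, G F k u p v)
      ((ContinuousLinearMap.fst ℝ ℝ ℝ).smulRight (∫ v, G F k (fun v => c0 v * u v) p v) +
       (ContinuousLinearMap.snd ℝ ℝ ℝ).smulRight (∫ v, G F (k + 1) (fun v => c1 v * u v) p v)) p := by
  obtain ⟨M, hM⟩ := hb k
  obtain ⟨M', hM'⟩ := hb (k + 1)
  have hu0 : Mom (fun v => c0 v * u v) := hu.mul cont_c0 norm_c0
  have hu1 : Mom (fun v => c1 v * u v) := hu.mul cont_c1 norm_c1
  have i0 : Integrable (G F k (fun v => c0 v * u v) p) :=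
    (hu0.integrable.const_mul M).mono' (cont_G hF k hu0.1 p).aestronglyMeasurable
      (Eventually.of_forall fun v => norm_G_le hM _ p v)
  have i1 : Integrable (G F (k + 1) (fun v => c1 v * u v) p) :=
    (hu1.integrable.const_mul M').mono' (cont_G hF (k + 1) hu1.1 p).aestronglyMeasurable
      (Eventually.of_forall fun v => norm_G_le hM' _ p v)
  let L0 : ℂ →L[ℝ] (ℝ × ℝ →L[ℝ] ℂ) := ContinuousLinearMap.smulRightL ℝ (ℝ × ℝ) ℂ
    (ContinuousLinearMap.fst ℝ ℝ ℝ)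
  let L1 : ℂ →L[ℝ] (ℝ × ℝ →L[ℝ] ℂ) := ContinuousLinearMap.smulRightL ℝ (ℝ × ℝ) ℂ
    (ContinuousLinearMap.snd ℝ ℝ ℝ)
  have hint : ∫ v, G' F k u p v =
      (ContinuousLinearMap.fst ℝ ℝ ℝ).smulRight (∫ v, G F k (fun v => c0 v * u v) p v) +
       (ContinuousLinearMap.snd ℝ ℝ ℝ).smulRight
        (∫ v, G F (k + 1) (fun v => c1 v * u v) p v) := by
    have e1 : ∀ v, G' F k u p v = L0 (G F k (fun v => c0 v * u v) p v) +
        L1 (G F (k + 1) (fun v => c1 v * u v) p v) := fun v => rfl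
    simp only [e1]
    rw [integral_add (L0.integrable_comp i0) (L1.integrable_comp i1),
      L0.integral_comp_comm i0, L1.integral_comp_comm i1]
    rfl
  rw [← hint]
  refine hasFDerivAt_integral_of_dominated_of_fderiv_le (s := univ)
    (bound := fun v => ‖(ContinuousLinearMap.fst ℝ ℝ ℝ)‖ * (M * ‖c0 v * u v‖) +
      ‖(ContinuousLinearMap.snd ℝ ℝ ℝ)‖ * (M' * ‖c1 v * u v‖)) univ_mem
    (Eventually.of_forall fun q => (cont_G hF k hu.1 q).aestronglyMeasurable) ?_ ?_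
    (Eventually.of_forall fun v q _ => ?_) ?_
    (Eventually.of_forall fun v q _ => hasFDerivAt_G hF k u q v)
  · exact (hu.integrable.const_mul M).mono' (cont_G hF k hu.1 p).aestronglyMeasurable
      (Eventually.of_forall fun v => norm_G_le hM _ p v)
  · exact ((L0.continuous.comp (cont_G hF k hu0.1 p)).add
      (L1.continuous.comp (cont_G hF (k + 1) hu1.1 p))).aestronglyMeasurable
  · refine (norm_add_le _ _).trans (add_le_add ?_ ?_)
    · rw [ContinuousLinearMap.norm_smulRight_apply]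
      gcongr
      exact norm_G_le hM _ q v
    · rw [ContinuousLinearMap.norm_smulRight_apply]
      gcongr
      exact norm_G_le hM' _ q v
  · exact ((hu0.integrable.const_mul M).const_mul _).add ((hu1.integrable.const_mul M').const_mul _)

lemma contDiff_int (hF : ∀ k z, HasDerivAt (F k) (F (k + 1) z) z)
    (hb : ∀ k, ∃ M, ∀ z, |F k z| ≤ M) (n : ℕ) (k : ℕ) {u : V2 → ℂ} (hu : Mom u) :
    ContDiff ℝ n (fun p => ∫ v, G F k u p v) := by
  induction n generalizing k u with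
  | zero =>
    rw [show ((0 : ℕ) : WithTop ℕ∞) = 0 by rfl, contDiff_zero]
    exact continuous_iff_continuousAt.2 fun p => (hasFDerivAt_int hF hb k hu p).continuousAt
  | succ n ih =>
    have hu0 : Mom (fun v => c0 v * u v) := hu.mul cont_c0 norm_c0
    have hu1 : Mom (fun v => c1 v * u v) := hu.mul cont_c1 norm_c1
    rw [show ((n + 1 : ℕ) : WithTop ℕ∞) = (n : WithTop ℕ∞) + 1 by push_cast; rfl,
      contDiff_succ_iff_hasFDerivAt]
    refine ⟨_, ?_, fun p => hasFDerivAt_int hF hb k hu p⟩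
    have L0 := (ContinuousLinearMap.smulRightL ℝ (ℝ × ℝ) ℂ
      (ContinuousLinearMap.fst ℝ ℝ ℝ)).contDiff (n := (n : WithTop ℕ∞))
    have L1 := (ContinuousLinearMap.smulRightL ℝ (ℝ × ℝ) ℂ
      (ContinuousLinearMap.snd ℝ ℝ ℝ)).contDiff (n := (n : WithTop ℕ∞))
    exact (L0.comp (ih k hu0)).add (L1.comp (ih (k + 1) hu1))

theorem main : S_INT := by
  intro F hF hb u hu hm k
  rw [contDiff_infty]
  intro n
  exact contDiff_int hF hb n k ⟨hu, hm⟩

end

end Pool.Agent.H81.HC.T.INT
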