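import Pool.Agent.H81.HC.Basic

/-! HC-KER: a smooth function `F` with `F (x ^ 2) = cos x` and bounded derivatives. -/

open Set Filter Topology MeasureTheory
open scoped ContDiff

namespace Pool.Agent.H81.HC.T.KER

noncomputable section

/-- terms of the series -/
def g (m n : ℕ) (z : ℝ) : ℝ := (-1) ^ n * z ^ n / ((2 * n + m).factorial : ℝ)

def S (m : ℕ) (z : ℝ) : ℝ := ∑' n, g m n z

lemma abs_g_le (m n : ℕ) (z : ℝ) : |g m n z| ≤ |z| ^ n / (n.factorial : ℝ) := by
  unfold g
  rw [abs_div, abs_mul, abs_pow, abs_pow, abs_neg, abs_one, one_pow, one_mul, Nat.abs_cast]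
  gcongr
  omega

lemma summable_g (m : ℕ) (z : ℝ) : Summable fun n => g m n z :=
  Summable.of_norm_bounded (Real.summable_pow_div_factorial |z|) fun n => abs_g_le m n z

/-- derivative of the terms -/
def g' (m n : ℕ) (z : ℝ) : ℝ := (-1) ^ n * (n * z ^ (n - 1)) / ((2 * n + m).factorial : ℝ)

lemma hasDerivAt_g (m n : ℕ) (z : ℝ) : HasDerivAt (g m n) (g' m n z) z := by
  unfold g g'
  exact ((hasDerivAt_pow n z).const_mul _).div_const _

lemma fact_le (m n : ℕ) : n * n.factorial ≤ (2 * n + m).factorial := by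
  rcases n with - | n
  · simp
  · have h1 : (2 * (n + 1)).factorial ≤ (2 * (n + 1) + m).factorial :=
      Nat.factorial_le (by omega)
    have h2 : (2 * (n + 1)).factorial = (2 * n + 2) * (2 * n + 1).factorial := by
      rw [show 2 * (n + 1) = (2 * n + 1) + 1 by ring, Nat.factorial_succ]
    have h3 : (n + 1).factorial ≤ (2 * n + 1).factorial := Nat.factorial_le (by omega)
    calc (n + 1) * (n + 1).factorial ≤ (2 * n + 2) * (2 * n + 1).factorial :=
          Nat.mul_le_mul (by omega) h3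
      _ = (2 * (n + 1)).factorial := h2.symm
      _ ≤ _ := h1

lemma abs_g'_le (m n : ℕ) {z R : ℝ} (hR : 1 ≤ R) (hz : |z| < R) :
    |g' m n z| ≤ R ^ n / (n.factorial : ℝ) := by
  unfold g'
  rw [abs_div, abs_mul, abs_mul, abs_pow, abs_pow, abs_neg, abs_one, one_pow, one_mul,
    Nat.abs_cast, Nat.abs_cast]
  have h1 : |z| ^ (n - 1) ≤ R ^ n := by
    calc |z| ^ (n - 1) ≤ R ^ (n - 1) := by gcongr
      _ ≤ R ^ n := pow_le_pow_right₀ hR (by omega)
  have h2 : (n : ℝ) * n.factorial ≤ ((2 * n + m).factorial : ℝ) := by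
    exact_mod_cast fact_le m n
  have h3 : (0 : ℝ) < n.factorial := by positivity
  have h4 : (0 : ℝ) < (2 * n + m).factorial := by positivity
  rw [div_le_div_iff₀ h4 h3]
  calc (n : ℝ) * |z| ^ (n - 1) * n.factorial = |z| ^ (n - 1) * (n * n.factorial) := by ring
    _ ≤ R ^ n * ((2 * n + m).factorial : ℝ) := by gcongr

lemma summable_g' (m : ℕ) (z : ℝ) : Summable fun n => g' m n z := by
  have : |z| < |z| + 1 := by linarith
  exact Summable.of_norm_bounded (Real.summable_pow_div_factorial (|z| + 1)) fun n =>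
    abs_g'_le m n (by linarith [abs_nonneg z]) this

lemma g'_succ (m n : ℕ) (z : ℝ) :
    g' m (n + 1) z = -(1 / 2) * g (m + 1) n z + (m / 2) * g (m + 2) n z := by
  unfold g' g
  have e1 : 2 * (n + 1) + m = 2 * n + m + 1 + 1 := by ring
  have e2 : 2 * n + (m + 1) = 2 * n + m + 1 := by ring
  have e3 : 2 * n + (m + 2) = 2 * n + m + 1 + 1 := by ring
  rw [e1, e2, e3, Nat.factorial_succ (2 * n + m + 1), Nat.add_sub_cancel]
  have h4 : ((2 * n + m + 1).factorial : ℝ) ≠ 0 := by positivity
  have h5 : ((2 * n + m + 1 + 1 : ℕ) : ℝ) ≠ 0 := by positivity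
  push_cast at h5 ⊢
  field_simp
  ring

lemma hasDerivAt_S (m : ℕ) (z : ℝ) :
    HasDerivAt (S m) (-(1 / 2) * S (m + 1) z + (m / 2) * S (m + 2) z) z := by
  have h1 : HasDerivAt (fun z => ∑' n, g m n z) (∑' n, g' m n z) z := by
    have hR : (1 : ℝ) ≤ |z| + 1 := by linarith [abs_nonneg z]
    refine hasDerivAt_tsum_of_isPreconnected (t := Metric.ball (0 : ℝ) (|z| + 1))
      (Real.summable_pow_div_factorial (|z| + 1)) Metric.isOpen_ball
      (convex_ball (0 : ℝ) (|z| + 1)).isPreconnected (fun n y _ => hasDerivAt_g m n y)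
      (fun n y hy => abs_g'_le m n hR (by simpa using hy))
      (Metric.mem_ball_self (by linarith)) (summable_g m 0) (by simp)
  have h2 : ∑' n, g' m n z = -(1 / 2) * S (m + 1) z + (m / 2) * S (m + 2) z := by
    rw [(summable_g' m z).tsum_eq_zero_add]
    have : g' m 0 z = 0 := by simp [g']
    rw [this, zero_add]
    unfold S
    rw [← tsum_mul_left, ← tsum_mul_left, ← Summable.tsum_add]
    · exact tsum_congr fun n => g'_succ m n z
    · exact (summable_g (m + 1) z).mul_left _
    · exact (summable_g (m + 2) z).mul_left _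
  rw [← h2]
  exact h1

lemma S_rec (m : ℕ) (z : ℝ) : S m z = 1 / (m.factorial : ℝ) - z * S (m + 2) z := by
  unfold S
  rw [(summable_g m z).tsum_eq_zero_add, ← tsum_mul_left, sub_eq_add_neg, ← tsum_neg]
  congr 1
  · simp [g]
  · refine tsum_congr fun n => ?_
    unfold g
    rw [show 2 * (n + 1) + m = 2 * n + (m + 2) by ring]
    ring

lemma S_zero_sq (x : ℝ) : S 0 (x ^ 2) = Real.cos x := by
  unfold S g
  rw [Real.cos_eq_tsum]
  refine tsum_congr fun n => ?_
  rw [add_zero, ← pow_mul]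

lemma hasDerivAt_R (m : ℕ) (x : ℝ) :
    HasDerivAt (fun x => x ^ (m + 1) * S (m + 1) (x ^ 2)) (x ^ m * S m (x ^ 2)) x := by
  have h1 : HasDerivAt (fun x : ℝ => S (m + 1) (x ^ 2))
      ((-(1 / 2) * S (m + 2) (x ^ 2) + ((m + 1 : ℕ) / 2) * S (m + 3) (x ^ 2)) * (2 * x)) x := by
    have := (hasDerivAt_S (m + 1) (x ^ 2)).comp x (hasDerivAt_pow 2 x)
    refine this.congr_deriv ?_
    norm_num
  have h2 := (hasDerivAt_pow (m + 1) x).mul h1
  refine h2.congr_deriv ?_
  have r1 := S_rec m (x ^ 2)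
  have r2 := S_rec (m + 1) (x ^ 2)
  have e : m + 1 + 2 = m + 3 := by ring
  rw [e] at r2
  rw [r1, r2]
  have h4 : (m.factorial : ℝ) ≠ 0 := by positivity
  have h5 : ((m : ℝ) + 1) ≠ 0 := by positivity
  rw [Nat.factorial_succ, Nat.add_sub_cancel]
  push_cast
  field_simp
  ring

lemma abs_R_le (m : ℕ) (x : ℝ) (hx : 0 ≤ x) :
    |x ^ m * S m (x ^ 2)| ≤ x ^ m / (m.factorial : ℝ) := by
  induction m generalizing x with
  | zero => simpa [S_zero_sq] using Real.abs_cos_le_one x
  | succ m ih =>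
    have h := image_norm_le_of_norm_deriv_right_le_deriv_boundary (a := 0) (b := x)
      (f := fun x => x ^ (m + 1) * S (m + 1) (x ^ 2)) (f' := fun x => x ^ m * S m (x ^ 2))
      (B := fun x => x ^ (m + 1) / ((m + 1).factorial : ℝ))
      (B' := fun x => x ^ m / (m.factorial : ℝ))
      (fun y _ => (hasDerivAt_R m y).continuousAt.continuousWithinAt)
      (fun y _ => (hasDerivAt_R m y).hasDerivWithinAt) (by simp)
      (fun y => by
        have := (hasDerivAt_pow (m + 1) y).div_const ((m + 1).factorial : ℝ)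
        refine this.congr_deriv ?_
        rw [Nat.factorial_succ, Nat.add_sub_cancel]
        push_cast
        have h4 : (m.factorial : ℝ) ≠ 0 := by positivity
        have h5 : ((m : ℝ) + 1) ≠ 0 := by positivity
        field_simp)
      (fun y hy => ih y hy.1) (right_mem_Icc.2 hx)
    exact h

lemma abs_S_le (m : ℕ) (z : ℝ) (hz : 0 ≤ z) : |S m z| ≤ 1 := by
  rcases eq_or_lt_of_le hz with h | h
  · rw [← h, S_rec, zero_mul, sub_zero, abs_of_nonneg (by positivity)]
    rw [div_le_one (by positivity)]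
    exact_mod_cast Nat.one_le_iff_ne_zero.2 (Nat.factorial_ne_zero m)
  · have hs : 0 < √z := Real.sqrt_pos.2 h
    have h1 := abs_R_le m (√z) hs.le
    rw [Real.sq_sqrt hz, abs_mul, abs_of_pos (pow_pos hs m), div_eq_mul_one_div] at h1
    have h2 := le_of_mul_le_mul_left h1 (pow_pos hs m)
    refine h2.trans ?_
    rw [div_le_one (by positivity)]
    exact_mod_cast Nat.one_le_iff_ne_zero.2 (Nat.factorial_ne_zero m)

/-- the span of the functions `S m` -/
def 𝒮 : Submodule ℝ (ℝ → ℝ) := Submodule.span ℝ (range S)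

lemma mem_𝒮 {f : ℝ → ℝ} (hf : f ∈ 𝒮) :
    (Differentiable ℝ f ∧ deriv f ∈ 𝒮) ∧ ∃ M, ∀ z, 0 ≤ z → |f z| ≤ M := by
  induction hf using Submodule.span_induction with
  | mem f hf =>
    obtain ⟨m, rfl⟩ := hf
    refine ⟨⟨fun z => (hasDerivAt_S m z).differentiableAt, ?_⟩, 1, fun z hz => abs_S_le m z hz⟩
    have : deriv (S m) = (-(1 / 2) : ℝ) • S (m + 1) + ((m : ℝ) / 2) • S (m + 2) := by
      ext z
      rw [(hasDerivAt_S m z).deriv]
      rfl
    rw [this]
    exact 𝒮.add_mem (𝒮.smul_mem _ (Submodule.subset_span ⟨_, rfl⟩))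
      (𝒮.smul_mem _ (Submodule.subset_span ⟨_, rfl⟩))
  | zero =>
    refine ⟨⟨differentiable_const 0, ?_⟩, 0, fun z _ => by simp⟩
    have : deriv (0 : ℝ → ℝ) = 0 := by
      ext z
      exact deriv_const z 0
    rw [this]
    exact 𝒮.zero_mem
  | add f g _ _ hf hg =>
    obtain ⟨⟨hf1, hf2⟩, M, hM⟩ := hf
    obtain ⟨⟨hg1, hg2⟩, N, hN⟩ := hg
    refine ⟨⟨hf1.add hg1, ?_⟩, M + N, fun z hz =>
      (abs_add_le _ _).trans (add_le_add (hM z hz) (hN z hz))⟩
    have : deriv (f + g) = deriv f + deriv g := by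
      ext z
      exact deriv_add (hf1 z) (hg1 z)
    rw [this]
    exact 𝒮.add_mem hf2 hg2
  | smul c f _ hf =>
    obtain ⟨⟨hf1, hf2⟩, M, hM⟩ := hf
    refine ⟨⟨hf1.const_smul c, ?_⟩, |c| * M, fun z hz => ?_⟩
    · have : deriv (c • f) = c • deriv f := by
        ext z
        exact deriv_const_smul c (hf1 z)
      rw [this]
      exact 𝒮.smul_mem _ hf2
    · simp only [Pi.smul_apply, smul_eq_mul, abs_mul]
      exact mul_le_mul_of_nonneg_left (hM z hz) (abs_nonneg c)

lemma iter_mem (k : ℕ) : iteratedDeriv k (S 0) ∈ 𝒮 := by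
  induction k with
  | zero =>
    rw [iteratedDeriv_zero]
    exact Submodule.subset_span ⟨_, rfl⟩
  | succ k ih =>
    rw [iteratedDeriv_succ]
    exact (mem_𝒮 ih).1.2

lemma contDiff_S0 : ContDiff ℝ ∞ (S 0) :=
  contDiff_of_differentiable_iteratedDeriv fun m _ => (mem_𝒮 (iter_mem m)).1.1

/-- the function -/
def Φ (z : ℝ) : ℝ := S 0 z * Real.smoothTransition (z + 1)

lemma contDiff_Φ : ContDiff ℝ ∞ Φ :=
  contDiff_S0.mul (Real.smoothTransition.contDiff.comp (contDiff_id.add contDiff_const))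

theorem main : S_KER := by
  refine ⟨fun k => iteratedDeriv k Φ, fun k z => ?_, fun k => ?_, fun x => ?_⟩
  · have h : Differentiable ℝ (iteratedDeriv k Φ) :=
      contDiff_Φ.differentiable_iteratedDeriv k (by exact_mod_cast ENat.natCast_lt_top k)
    simp only [iteratedDeriv_succ]
    exact (h z).hasDerivAt
  · obtain ⟨M, hM⟩ := (mem_𝒮 (iter_mem k)).2
    have hc : Continuous (iteratedDeriv k Φ) :=
      contDiff_Φ.continuous_iteratedDeriv k (by exact_mod_cast le_top)
    obtain ⟨N, hN⟩ := (isCompact_Icc (a := (-1 : ℝ)) (b := 0)).exists_bound_of_continuousOn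
      hc.continuousOn
    refine ⟨max M (max N 0), fun z => ?_⟩
    change |iteratedDeriv k Φ z| ≤ _
    rcases lt_or_ge z (-1) with h1 | h1
    · have : Φ =ᶠ[𝓝 z] fun _ => 0 := by
        filter_upwards [Iio_mem_nhds h1] with y hy
        unfold Φ
        rw [Real.smoothTransition.zero_of_nonpos (by
          have : y < -1 := hy
          linarith), mul_zero]
      have h2 := this.iteratedDeriv_eq k
      rw [h2]
      have : iteratedDeriv k (fun _ : ℝ => (0 : ℝ)) z = 0 := by
        simp [iteratedDeriv_const]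
      rw [this, abs_zero]
      exact (le_max_right N 0).trans (le_max_right _ _)
    · rcases le_or_gt z 0 with h2 | h2
      · exact (hN z ⟨h1, h2⟩).trans ((le_max_left N 0).trans (le_max_right _ _))
      · have : Φ =ᶠ[𝓝 z] S 0 := by
          filter_upwards [Ioi_mem_nhds h2] with y hy
          unfold Φ
          rw [Real.smoothTransition.one_of_one_le (by
            have : 0 < y := hy
            linarith), mul_one]
        rw [this.iteratedDeriv_eq k]
        exact (hM z h2.le).trans (le_max_left _ _)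
  · simp only [iteratedDeriv_zero]
    unfold Φ
    rw [Real.smoothTransition.one_of_one_le (by nlinarith [sq_nonneg x]), mul_one, S_zero_sq]

end

end Pool.Agent.H81.HC.T.KER
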