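import Pool.Agent.H81.HC.Basic

/-!
# HC-LEG: the partial Legendre transform
-/

open Set Filter Topology MeasureTheory
open scoped ContDiff

namespace Pool.Agent.H81.HC.T.LEG

noncomputable section

open Pool.Agent.H81.HC

/-- symmetry of the second derivatives -/
lemma D1_D2 {f : ℝ × ℝ → ℝ} {a : ℝ × ℝ} (h : ContDiffAt ℝ ∞ f a) : D1 (D2 f) a = D2 (D1 f) a := by
  have hd : DifferentiableAt ℝ (fderiv ℝ f) a :=
    (h.fderiv_right (m := ∞) (by simp)).differentiableAt (by simp)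
  have hs : IsSymmSndFDerivAt ℝ f a := by
    refine h.isSymmSndFDerivAt ?_
    rw [minSmoothness_of_isRCLikeNormedField]
    exact WithTop.coe_le_coe.2 (le_top : ((2 : ℕ∞)) ≤ ⊤)
  have e : ∀ v w : ℝ × ℝ, fderiv ℝ (fun x => fderiv ℝ f x v) a w = fderiv ℝ (fderiv ℝ f) a w v := by
    intro v w
    have h1 : HasFDerivAt (fun x => fderiv ℝ f x v)
        ((ContinuousLinearMap.apply ℝ ℝ v).comp (fderiv ℝ (fderiv ℝ f) a)) a :=
      (ContinuousLinearMap.apply ℝ ℝ v).hasFDerivAt.comp a hd.hasFDerivAt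
    rw [h1.fderiv]
    rfl
  change fderiv ℝ (fun x => fderiv ℝ f x (0, 1)) a (1, 0) =
    fderiv ℝ (fun x => fderiv ℝ f x (1, 0)) a (0, 1)
  rw [e, e]
  exact hs _ _

/-- derivative in the second variable of `f (P y, y.2)` -/
lemma D2_sub {f P : ℝ × ℝ → ℝ} {a : ℝ × ℝ} (hf : DifferentiableAt ℝ f (P a, a.2))
    (hP : DifferentiableAt ℝ P a) :
    D2 (fun y => f (P y, y.2)) a = D1 f (P a, a.2) * D2 P a + D2 f (P a, a.2) := by
  have hd : DifferentiableAt ℝ (fun y : ℝ × ℝ => f (P y, y.2)) a := by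
    have h1 : DifferentiableAt ℝ (fun y : ℝ × ℝ => (P y, y.2)) a :=
      hP.prodMk differentiableAt_snd
    exact DifferentiableAt.comp a (g := f) (f := fun y : ℝ × ℝ => (P y, y.2)) hf h1
  obtain ⟨s, t⟩ := a
  have h1 := hasDerivAt_snd (f := fun y : ℝ × ℝ => f (P y, y.2)) hd
  have h2 := hasDerivAt_pair (f := f) (g := fun t => P (s, t)) (h := fun t => t) hf
    (hasDerivAt_snd hP) (hasDerivAt_id t)
  have h3 := h1.unique h2
  rw [h3]
  simp

/-- product rule for `D2` -/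
lemma D2_mul {f g : ℝ × ℝ → ℝ} {a : ℝ × ℝ} (hf : DifferentiableAt ℝ f a)
    (hg : DifferentiableAt ℝ g a) :
    D2 (fun y => f y * g y) a = D2 f a * g a + f a * D2 g a := by
  unfold D2
  rw [fderiv_fun_mul hf hg]
  simp
  ring

lemma D2_add {f g : ℝ × ℝ → ℝ} {a : ℝ × ℝ} (hf : DifferentiableAt ℝ f a)
    (hg : DifferentiableAt ℝ g a) :
    D2 (fun y => f y + g y) a = D2 f a + D2 g a := by
  unfold D2
  rw [fderiv_fun_add hf hg]
  simp

lemma D2_subt {f g : ℝ × ℝ → ℝ} {a : ℝ × ℝ} (hf : DifferentiableAt ℝ f a)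
    (hg : DifferentiableAt ℝ g a) :
    D2 (fun y => f y - g y) a = D2 f a - D2 g a := by
  unfold D2
  rw [fderiv_fun_sub hf hg]
  simp

lemma D2_snd (a : ℝ × ℝ) : D2 (fun y : ℝ × ℝ => y.2) a = 1 := by
  unfold D2
  rw [show (fun y : ℝ × ℝ => y.2) = Prod.snd from rfl, fderiv_snd]
  simp

lemma D2_swap {W : ℝ × ℝ → ℝ} {a : ℝ × ℝ} (hW : DifferentiableAt ℝ W (a.2, a.1)) :
    D1 (fun y => W (y.2, y.1)) a = D2 W (a.2, a.1) := by
  have hd : DifferentiableAt ℝ (fun y : ℝ × ℝ => W (y.2, y.1)) a := by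
    have h1 : DifferentiableAt ℝ (fun y : ℝ × ℝ => (y.2, y.1)) a :=
      differentiableAt_snd.prodMk differentiableAt_fst
    exact DifferentiableAt.comp a (g := W) (f := fun y : ℝ × ℝ => (y.2, y.1)) hW h1
  obtain ⟨s, t⟩ := a
  have h1 := hasDerivAt_fst (f := fun y : ℝ × ℝ => W (y.2, y.1)) hd
  have h2 := hasDerivAt_snd (f := W) (s := t) (t := s) hW
  exact h1.unique h2

lemma D2_swap' {W : ℝ × ℝ → ℝ} {a : ℝ × ℝ} (hW : DifferentiableAt ℝ W (a.2, a.1)) :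
    D2 (fun y => W (y.2, y.1)) a = D1 W (a.2, a.1) := by
  have hd : DifferentiableAt ℝ (fun y : ℝ × ℝ => W (y.2, y.1)) a := by
    have h1 : DifferentiableAt ℝ (fun y : ℝ × ℝ => (y.2, y.1)) a :=
      differentiableAt_snd.prodMk differentiableAt_fst
    exact DifferentiableAt.comp a (g := W) (f := fun y : ℝ × ℝ => (y.2, y.1)) hW h1
  obtain ⟨s, t⟩ := a
  have h1 := hasDerivAt_snd (f := fun y : ℝ × ℝ => W (y.2, y.1)) hd
  have h2 := hasDerivAt_fst (f := W) (s := t) (t := s) hW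
  exact h1.unique h2

theorem main : S_FIB → S_LEG := by
  intro hFIB f hf h11 h21 h22 h222
  -- the function `T (q, p) = f_p (p, q) - f_p (0)`
  have hswap : Sm (fun x : ℝ × ℝ => (x.2, x.1)) 0 := (Sm.snd _).prodMk (Sm.fst _)
  have hT1 : Sm (fun x : ℝ × ℝ => D1 f (x.2, x.1)) 0 := Sm.comp (g := D1 f) hf.D1 hswap
  have hT : Sm (fun x : ℝ × ℝ => D1 f (x.2, x.1) - D1 f 0) 0 := hT1.sub (Sm.const _ _)
  have hT0 : (fun x : ℝ × ℝ => D1 f (x.2, x.1) - D1 f 0) 0 = 0 := by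
    simp only [Prod.snd_zero, Prod.fst_zero]
    rw [show ((0 : ℝ), (0 : ℝ)) = 0 from rfl, sub_self]
  have hDT : D2 (fun x : ℝ × ℝ => D1 f (x.2, x.1) - D1 f 0) 0 = D1 (D1 f) 0 := by
    rw [D2_subt hT1.differentiableAt (differentiableAt_const _)]
    rw [D2_swap' (W := D1 f) (a := 0) hf.D1.differentiableAt]
    have : D2 (fun _ : ℝ × ℝ => D1 f 0) 0 = 0 := by unfold D2; simp
    rw [this, sub_zero]
    rfl
  obtain ⟨W, hW, hW0, hW1, -, hW3⟩ := hFIB _ hT hT0 (by rw [hDT]; exact h11)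
  rw [hDT] at hW3
  -- `P (s, q) = W (q, s)`
  set P : ℝ × ℝ → ℝ := fun y => W (y.2, y.1) with hPdef
  have hP : Sm P 0 := Sm.comp (g := W) hW hswap
  have hP0 : P 0 = 0 := hW0
  have hD1P : D1 P 0 = (D1 (D1 f) 0)⁻¹ := by
    rw [hPdef, D2_swap (W := W) (a := 0) hW.differentiableAt]
    exact hW3
  have hcont : Tendsto (fun y : ℝ × ℝ => (y.2, y.1)) (𝓝 0) (𝓝 0) := by
    have : Continuous (fun y : ℝ × ℝ => (y.2, y.1)) := by fun_prop
    exact this.tendsto' 0 0 rfl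
  have hF1 : ∀ᶠ y in 𝓝 (0 : ℝ × ℝ), D1 f (P y, y.2) = D1 f 0 + y.1 := by
    filter_upwards [hcont.eventually hW1] with y hy
    have : D1 f (W (y.2, y.1), y.2) - D1 f 0 = y.1 := hy
    rw [hPdef]
    linarith
  -- the map `y ↦ (P y, y.2)`
  have hPm : Sm (fun y : ℝ × ℝ => (P y, y.2)) 0 := hP.prodMk (Sm.snd _)
  have hPm0 : ((P 0, (0 : ℝ × ℝ).2) : ℝ × ℝ) = 0 := by
    rw [hP0]
    rfl
  have hPmt : Tendsto (fun y : ℝ × ℝ => (P y, y.2)) (𝓝 0) (𝓝 0) := by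
    have := hPm.continuousAt.tendsto
    rwa [hPm0] at this
  have hcomp : ∀ g : ℝ × ℝ → ℝ, Sm g 0 → Sm (fun y : ℝ × ℝ => g (P y, y.2)) 0 := by
    intro g hg
    refine Sm.comp (g := g) (f := fun y : ℝ × ℝ => (P y, y.2)) ?_ hPm
    rw [hPm0]
    exact hg
  have hz : ((P 0, (0 : ℝ × ℝ).2) : ℝ × ℝ) = 0 := hPm0
  -- derivative of a composition
  have hder : ∀ g : ℝ × ℝ → ℝ, Sm g 0 → ∀ᶠ y in 𝓝 (0 : ℝ × ℝ),
      D2 (fun y => g (P y, y.2)) y = D1 g (P y, y.2) * D2 P y + D2 g (P y, y.2) := by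
    intro g hg
    filter_upwards [hPmt.eventually hg.ev_differentiableAt, hP.ev_differentiableAt] with y h1 h2
    exact D2_sub h1 h2
  have hder0 : ∀ g : ℝ × ℝ → ℝ, Sm g 0 →
      D2 (fun y => g (P y, y.2)) 0 = D1 g 0 * D2 P 0 + D2 g 0 := by
    intro g hg
    have := (hder g hg).self_of_nhds
    rw [this, hz]
  -- `P_q (0) = 0`
  have hD2P : D2 P 0 = 0 := by
    have h1 := hder0 (D1 f) hf.D1
    have h2 : D2 (fun y => D1 f (P y, y.2)) 0 = 0 := by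
      rw [(D2_congr hF1).self_of_nhds]
      unfold D2
      rw [fderiv_const_add]
      rw [fderiv_fst]
      simp
    rw [h2, h21, add_zero] at h1
    rcases mul_eq_zero.1 h1.symm with h | h
    · exact absurd h h11
    · exact h
  have hU : Sm (fun y : ℝ × ℝ => D2 f (P y, y.2)) 0 := hcomp _ hf.D2
  have hV : Sm (fun y : ℝ × ℝ => f (P y, y.2) - P y * D1 f (P y, y.2) - y.2 * D2 f (P y, y.2)) 0 :=
    ((hcomp _ hf).sub (hP.mul (hcomp _ hf.D1))).sub ((Sm.snd _).mul hU)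
  have hsym : D1 (D2 f) 0 = 0 := by
    rw [D1_D2 hf.contDiffAt, h21]
  refine ⟨P, fun y => D2 f (P y, y.2),
    fun y => f (P y, y.2) - P y * D1 f (P y, y.2) - y.2 * D2 f (P y, y.2), hP, hU, hV, hP0,
    ?_, hF1, Eventually.of_forall fun _ => rfl, Eventually.of_forall fun _ => rfl, ?_, ?_, ?_⟩
  · rw [hD1P]
    exact inv_ne_zero h11
  · -- `V_q = - q U_q`
    filter_upwards [hder f hf, hP.ev_differentiableAt, (hcomp _ hf).ev_differentiableAt,
      (hcomp _ hf.D1).ev_differentiableAt, hU.ev_differentiableAt, hF1,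
      D2_congr hF1] with y e1 d1 d2 d3 d4 e2 e3
    have e4 : D2 (fun y => D1 f (P y, y.2)) y = 0 := by
      rw [e3]
      unfold D2
      rw [fderiv_const_add]
      rw [fderiv_fst]
      simp
    have d5 : DifferentiableAt ℝ (fun y : ℝ × ℝ => y.2) y := differentiableAt_snd
    have s1 : D2 (fun y => f (P y, y.2) - P y * D1 f (P y, y.2) - y.2 * D2 f (P y, y.2)) y =
        D2 (fun y => f (P y, y.2) - P y * D1 f (P y, y.2)) y -
          D2 (fun y => y.2 * D2 f (P y, y.2)) y := D2_subt (d2.sub (d1.mul d3)) (d5.mul d4)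
    have s2 : D2 (fun y => f (P y, y.2) - P y * D1 f (P y, y.2)) y =
        D2 (fun y => f (P y, y.2)) y - D2 (fun y => P y * D1 f (P y, y.2)) y :=
      D2_subt d2 (d1.mul d3)
    have s3 : D2 (fun y => P y * D1 f (P y, y.2)) y =
        D2 P y * D1 f (P y, y.2) + P y * D2 (fun y => D1 f (P y, y.2)) y := D2_mul d1 d3
    have s4 : D2 (fun y : ℝ × ℝ => y.2 * D2 f (P y, y.2)) y =
        D2 (fun y : ℝ × ℝ => y.2) y * D2 f (P y, y.2) +
          y.2 * D2 (fun y => D2 f (P y, y.2)) y := D2_mul d5 d4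
    rw [s1, s2, s3, s4, e4, e1, D2_snd]
    ring
  · rw [hder0 _ hf.D2, hD2P, h22]
    simp
  · -- the second derivative of `U`
    have hUd : ∀ᶠ y in 𝓝 (0 : ℝ × ℝ), D2 (fun y => D2 f (P y, y.2)) y =
        D1 (D2 f) (P y, y.2) * D2 P y + D2 (D2 f) (P y, y.2) := hder _ hf.D2
    rw [(D2_congr hUd).self_of_nhds]
    have a1 : DifferentiableAt ℝ (fun y : ℝ × ℝ => D1 (D2 f) (P y, y.2)) 0 :=
      (hcomp _ hf.D2.D1).differentiableAt
    have a2 : DifferentiableAt ℝ (D2 P) 0 := hP.D2.differentiableAt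
    have a3 : DifferentiableAt ℝ (fun y : ℝ × ℝ => D2 (D2 f) (P y, y.2)) 0 :=
      (hcomp _ hf.D2.D2).differentiableAt
    have s1 : D2 (fun y : ℝ × ℝ => D1 (D2 f) (P y, y.2) * D2 P y + D2 (D2 f) (P y, y.2)) 0 =
        D2 (fun y : ℝ × ℝ => D1 (D2 f) (P y, y.2) * D2 P y) 0 +
          D2 (fun y : ℝ × ℝ => D2 (D2 f) (P y, y.2)) 0 := D2_add (a1.mul a2) a3
    have s2 : D2 (fun y : ℝ × ℝ => D1 (D2 f) (P y, y.2) * D2 P y) 0 =
        D2 (fun y : ℝ × ℝ => D1 (D2 f) (P y, y.2)) 0 * D2 P 0 +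
          D1 (D2 f) (P 0, (0 : ℝ × ℝ).2) * D2 (D2 P) 0 := D2_mul a1 a2
    rw [s1, s2, hz, hsym, hD2P, hder0 _ hf.D2.D2, hD2P]
    simpa using h222

end

end Pool.Agent.H81.HC.T.LEG
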