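import Pool.Agent.H81.HC.Basic

/-!
# HC-NF: the normal form of the cuspidal edge from LEG, FOLD, ODD (helper96)
-/

open Set Filter Topology MeasureTheory
open scoped ContDiff

namespace Pool.Agent.H81.HC.T.NF

open Pool.Agent.H81.HC

theorem main : S_LEG → S_FOLD → S_ODD → S_NF := by
  intro hL hF hO f hf h1 h2 h3 h4
  obtain ⟨P, U, V, sP, sU, sV, P0, dP, eX, eU, eV, eVU, dU, ddU⟩ := hL f hf h1 h2 h3 h4
  obtain ⟨u0, Q, ε, hε, su0, sQ, Q0, dQ, eQ⟩ := hF U sU dU ddU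
  obtain ⟨A, B, sA, sB, B0, eA⟩ := hO U V Q u0 ε sU sV sQ su0 hε Q0 dQ eVU eQ
  have hε2 : ε * ε = 1 := by rcases hε with h | h <;> rw [h] <;> norm_num
  have hε0 : ε ≠ 0 := by rcases hε with h | h <;> rw [h] <;> norm_num
  -- values at the origin
  have hU0 : U 0 = D2 f 0 := by
    have := eU.self_of_nhds
    rw [P0] at this
    exact this
  have hu00 : u0 0 = D2 f 0 := by
    have h := eQ.self_of_nhds
    have e : ((0 : ℝ × ℝ).1, Q 0) = (0 : ℝ × ℝ) := by rw [Q0]; rfl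
    rw [e, hU0] at h
    simpa using h.symm
  set φ : ℝ × ℝ → ℝ × ℝ := fun p => (P (p.1, Q p), Q p) with hφ
  set ψ : ℝ × ℝ × ℝ → ℝ × ℝ × ℝ := fun c =>
    (c.1 - D1 f 0, ε * (c.2.1 - u0 (c.1 - D1 f 0)),
      (c.2.2 - A (c.1 - D1 f 0, ε * (c.2.1 - u0 (c.1 - D1 f 0)))) /
        B (c.1 - D1 f 0, ε * (c.2.1 - u0 (c.1 - D1 f 0)))) with hψ
  have hc0 : front f 0 = (D1 f 0, D2 f 0, f 0) := by
    simp [front, D1, D2]
  have hz : ((D1 f 0) - D1 f 0, ε * (D2 f 0 - u0 (D1 f 0 - D1 f 0))) = (0 : ℝ × ℝ) := by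
    rw [sub_self, hu00]; simp
  -- smoothness of phi
  have e0 : ((0 : ℝ × ℝ).1, Q 0) = (0 : ℝ × ℝ) := by rw [Q0]; rfl
  have sPQ : Sm (fun p : ℝ × ℝ => P (p.1, Q p)) 0 := by
    have s1 : Sm (fun p : ℝ × ℝ => (p.1, Q p)) 0 := (Sm.fst 0).prodMk sQ
    exact Sm.comp (g := P) (f := fun p : ℝ × ℝ => (p.1, Q p)) (by rw [e0]; exact sP) s1
  have sφ : Sm φ 0 := sPQ.prodMk sQ
  have sx : ∀ c, Sm (fun c : ℝ × ℝ × ℝ => c.1 - D1 f 0) c := fun c =>
    (Sm.fst c).sub (Sm.const _ c)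
  have sy : Sm (fun c : ℝ × ℝ × ℝ => ε * (c.2.1 - u0 (c.1 - D1 f 0))) (front f 0) := by
    rw [hc0]
    refine (Sm.const ε _).mul (Sm.sub ?_ ?_)
    · exact Sm.of_contDiff (contDiff_fst.comp contDiff_snd) _
    · refine Sm.comp (g := u0) (f := fun c : ℝ × ℝ × ℝ => c.1 - D1 f 0) ?_ (sx _)
      rw [show (D1 f 0, D2 f 0, f 0).1 - D1 f 0 = 0 from sub_self _]
      exact su0
  have sxy : Sm (fun c : ℝ × ℝ × ℝ => (c.1 - D1 f 0, ε * (c.2.1 - u0 (c.1 - D1 f 0))))
      (front f 0) := (sx _).prodMk sy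
  have hval : (fun c : ℝ × ℝ × ℝ => (c.1 - D1 f 0, ε * (c.2.1 - u0 (c.1 - D1 f 0))))
      (front f 0) = 0 := by
    rw [hc0]; exact hz
  have sAA : Sm (fun c : ℝ × ℝ × ℝ => A (c.1 - D1 f 0, ε * (c.2.1 - u0 (c.1 - D1 f 0))))
      (front f 0) := by
    refine Sm.comp (g := A) ?_ sxy
    have : Sm A ((fun c : ℝ × ℝ × ℝ => (c.1 - D1 f 0, ε * (c.2.1 - u0 (c.1 - D1 f 0))))
      (front f 0)) := by rw [hval]; exact sA
    exact this
  have sBB : Sm (fun c : ℝ × ℝ × ℝ => B (c.1 - D1 f 0, ε * (c.2.1 - u0 (c.1 - D1 f 0))))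
      (front f 0) := by
    refine Sm.comp (g := B) ?_ sxy
    have : Sm B ((fun c : ℝ × ℝ × ℝ => (c.1 - D1 f 0, ε * (c.2.1 - u0 (c.1 - D1 f 0))))
      (front f 0)) := by rw [hval]; exact sB
    exact this
  have hB1 : B ((front f 0).1 - D1 f 0, ε * ((front f 0).2.1 - u0 ((front f 0).1 - D1 f 0))) =
      B 0 := congrArg B hval
  have sψ : Sm ψ (front f 0) := by
    refine (sx _).prodMk (sy.prodMk (Sm.div (Sm.sub ?_ sAA) sBB ?_))
    · exact Sm.of_contDiff (contDiff_snd.comp contDiff_snd) _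
    · rw [hB1]; exact B0
  refine ⟨φ, ψ, sφ, ?_, ?_, sψ, ?_, ?_⟩
  · rw [hφ]
    simp only
    rw [e0, P0, Q0]
    rfl
  · -- derivative of phi
    have hd : ∀ v, fderiv ℝ φ 0 v =
        (D1 P 0 * v.1 + D2 P 0 * fderiv ℝ Q 0 v, fderiv ℝ Q 0 v) := by
      intro v
      have hQ := sQ.differentiableAt.hasFDerivAt
      have hin : HasFDerivAt (fun p : ℝ × ℝ => (p.1, Q p))
          ((ContinuousLinearMap.fst ℝ ℝ ℝ).prod (fderiv ℝ Q 0)) 0 :=
        hasFDerivAt_fst.prodMk hQ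
      have hP' : HasFDerivAt P (fderiv ℝ P 0) ((fun p : ℝ × ℝ => (p.1, Q p)) 0) := by
        simp only
        rw [e0]
        exact sP.differentiableAt.hasFDerivAt
      have h5 := (hP'.comp (0 : ℝ × ℝ) hin).prodMk hQ
      have h6 : fderiv ℝ φ 0 = _ := h5.fderiv
      rw [h6]
      simp [fderiv_eq_D P 0]
    have hinj : Function.Injective (fderiv ℝ φ 0) := by
      rw [injective_iff_map_eq_zero]
      intro v hv
      rw [hd] at hv
      have hv1 := congrArg Prod.fst hv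
      have hv2 := congrArg Prod.snd hv
      simp only [Prod.fst_zero, Prod.snd_zero] at hv1 hv2
      rw [hv2, mul_zero, add_zero] at hv1
      have hv3 : v.1 = 0 := (mul_eq_zero.1 hv1).resolve_left dP
      rw [fderiv_eq_D, hv3, mul_zero, zero_add] at hv2
      have hv4 : v.2 = 0 := (mul_eq_zero.1 hv2).resolve_left dQ
      exact Prod.ext hv3 hv4
    exact ⟨hinj, LinearMap.surjective_of_injective (f := (fderiv ℝ φ 0).toLinearMap) hinj⟩
  · have hinj : Function.Injective (fderiv ℝ ψ (front f 0)) := by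
      rw [injective_iff_map_eq_zero]
      intro v hv
      have hline : HasDerivAt (fun t : ℝ => front f 0 + t • v) v 0 := by
        have := ((hasDerivAt_id (0 : ℝ)).smul_const v).const_add (front f 0)
        simpa using this
      have hψd : HasFDerivAt ψ (fderiv ℝ ψ (front f 0)) (front f 0 + (0 : ℝ) • v) := by
        rw [zero_smul, add_zero]
        exact sψ.differentiableAt.hasFDerivAt
      have hcomp : HasDerivAt (fun t : ℝ => ψ (front f 0 + t • v)) (fderiv ℝ ψ (front f 0) v) 0 :=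
        hψd.comp_hasDerivAt (0 : ℝ) hline
      rw [hv] at hcomp
      have c1 : HasDerivAt (fun t : ℝ => (ψ (front f 0 + t • v)).1) (0 : ℝ × ℝ × ℝ).1 0 :=
        (ContinuousLinearMap.fst ℝ ℝ (ℝ × ℝ)).hasFDerivAt.comp_hasDerivAt (0 : ℝ) hcomp
      have c2 : HasDerivAt (fun t : ℝ => (ψ (front f 0 + t • v)).2) (0 : ℝ × ℝ × ℝ).2 0 :=
        (ContinuousLinearMap.snd ℝ ℝ (ℝ × ℝ)).hasFDerivAt.comp_hasDerivAt (0 : ℝ) hcomp
      have c21 : HasDerivAt (fun t : ℝ => (ψ (front f 0 + t • v)).2.1) (0 : ℝ × ℝ × ℝ).2.1 0 :=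
        (ContinuousLinearMap.fst ℝ ℝ ℝ).hasFDerivAt.comp_hasDerivAt (0 : ℝ) c2
      have c22 : HasDerivAt (fun t : ℝ => (ψ (front f 0 + t • v)).2.2) (0 : ℝ × ℝ × ℝ).2.2 0 :=
        (ContinuousLinearMap.snd ℝ ℝ ℝ).hasFDerivAt.comp_hasDerivAt (0 : ℝ) c2
      have v1 : v.1 = 0 := by
        have d1 : HasDerivAt (fun t : ℝ => (ψ (front f 0 + t • v)).1) v.1 0 := by
          have : (fun t : ℝ => (ψ (front f 0 + t • v)).1) = fun t => t * v.1 := by
            funext t
            simp [hψ, hc0]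
          rw [this]
          simpa using (hasDerivAt_id (0 : ℝ)).mul_const v.1
        exact d1.unique c1
      have v2 : v.2.1 = 0 := by
        have d1 : HasDerivAt (fun t : ℝ => (ψ (front f 0 + t • v)).2.1) (ε * v.2.1) 0 := by
          have : (fun t : ℝ => (ψ (front f 0 + t • v)).2.1) = fun t => t * (ε * v.2.1) := by
            funext t
            simp only [hψ, hc0]
            simp only [Prod.fst_add, Prod.smul_fst, v1, smul_eq_mul, mul_zero, add_zero, sub_self,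
              hu00, Prod.snd_add, Prod.smul_snd]
            ring
          rw [this]
          simpa using (hasDerivAt_id (0 : ℝ)).mul_const (ε * v.2.1)
        have := d1.unique c21
        exact (mul_eq_zero.1 this).resolve_left hε0
      have v3 : v.2.2 = 0 := by
        have d1 : HasDerivAt (fun t : ℝ => (ψ (front f 0 + t • v)).2.2) (v.2.2 / B 0) 0 := by
          have : (fun t : ℝ => (ψ (front f 0 + t • v)).2.2) =
              fun t => t * (v.2.2 / B 0) + (f 0 - A 0) / B 0 := by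
            funext t
            simp only [hψ, hc0]
            simp only [Prod.fst_add, Prod.smul_fst, v1, v2, smul_eq_mul, mul_zero, add_zero,
              sub_self, hu00, Prod.snd_add, Prod.smul_snd, Prod.mk_zero_zero]
            ring
          rw [this]
          simpa using ((hasDerivAt_id (0 : ℝ)).mul_const (v.2.2 / B 0)).add_const
            ((f 0 - A 0) / B 0)
        have := d1.unique c22
        have h7 : v.2.2 / B 0 = 0 := this
        exact (div_eq_zero_iff.1 h7).resolve_right B0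
      exact Prod.ext v1 (Prod.ext v2 v3)
    exact ⟨hinj, LinearMap.surjective_of_injective (f := (fderiv ℝ ψ (front f 0)).toLinearMap)
      hinj⟩
  · -- the equation
    have hcont : Tendsto (fun p : ℝ × ℝ => (p.1, Q p)) (𝓝 0) (𝓝 (0 : ℝ × ℝ)) := by
      have s1 : Sm (fun p : ℝ × ℝ => (p.1, Q p)) 0 := (Sm.fst 0).prodMk sQ
      have h5 := s1.continuousAt
      rw [ContinuousAt, e0] at h5
      exact h5
    have hcont2 : Tendsto (fun p : ℝ × ℝ => (p.1, p.2 ^ 2)) (𝓝 0) (𝓝 (0 : ℝ × ℝ)) := by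
      have h5 : Continuous (fun p : ℝ × ℝ => (p.1, p.2 ^ 2)) := by fun_prop
      have := h5.tendsto 0
      have h6 : (((0 : ℝ × ℝ).1, (0 : ℝ × ℝ).2 ^ 2) : ℝ × ℝ) = 0 := by
        simp
      rw [h6] at this
      exact this
    have hBne : ∀ᶠ p in 𝓝 (0 : ℝ × ℝ), B (p.1, p.2 ^ 2) ≠ 0 :=
      hcont2.eventually (sB.continuousAt.eventually_ne B0)
    filter_upwards [hcont.eventually eX, hcont.eventually eU, hcont.eventually eV, eQ, eA, hBne]
      with p k1 k2 k3 k4 k5 k6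
    have hfr : front f (φ p) = (D1 f 0 + p.1, U (p.1, Q p), V (p.1, Q p)) := by
      simp only [front, hφ]
      have j1 : fderiv ℝ f (P (p.1, Q p), Q p) (1, 0) = D1 f 0 + p.1 := k1
      have j2 : fderiv ℝ f (P (p.1, Q p), Q p) (0, 1) = U (p.1, Q p) := k2.symm
      have j3 : D1 f (P (p.1, Q p), Q p) = D1 f 0 + p.1 := k1
      rw [j1, j2, k3, j3, ← k2]
    have hy : ε * (U (p.1, Q p) - u0 p.1) = p.2 ^ 2 := by
      rw [k4]
      linear_combination (p.2 ^ 2) * hε2
    rw [hfr]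
    simp only [hψ, add_sub_cancel_left]
    rw [hy, k5]
    congr 2
    field_simp
    ring

end Pool.Agent.H81.HC.T.NF
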