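import Mathlib
import Pool.Agent.H81.HC.Basic

/-!
# The third coordinate of the front is odd up to a function of the square
-/

set_option autoImplicit false

open Set Filter Topology MeasureTheory
open scoped ContDiff

namespace Pool.Agent.H81.HC.T.ODD

noncomputable section

open Pool.Agent.H81.HC

lemma tendsto_line (p : ℝ × ℝ) : Tendsto (fun t : ℝ => (p.1, t)) (𝓝 p.2) (𝓝 p) := by
  have h : Continuous fun t : ℝ => (p.1, t) := by fun_prop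
  exact h.tendsto p.2

lemma tendsto_sq : Tendsto (fun p : ℝ × ℝ => (p.1, p.2 ^ 2)) (𝓝 0) (𝓝 0) := by
  have h : Continuous fun p : ℝ × ℝ => (p.1, p.2 ^ 2) := by fun_prop
  have h2 := h.tendsto (0 : ℝ × ℝ)
  have h3 : (((0 : ℝ × ℝ).1, (0 : ℝ × ℝ).2 ^ 2) : ℝ × ℝ) = 0 := by simp
  rwa [h3] at h2

lemma ev_sq {A : ℝ × ℝ → ℝ} (hA : Sm A 0) : ∀ᶠ p in 𝓝 (0 : ℝ × ℝ),
    HasDerivAt (fun t => A (p.1, t ^ 2)) (D2 A (p.1, p.2 ^ 2) * (2 * p.2)) p.2 := by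
  filter_upwards [tendsto_sq.eventually hA.ev_differentiableAt] with p hp
  have h1 : HasDerivAt (fun t : ℝ => t ^ 2) (2 * p.2) p.2 := by simpa using hasDerivAt_pow 2 p.2
  have h2 := hasDerivAt_pair (f := A) (g := fun _ => p.1) (h := fun t => t ^ 2) hp
    (hasDerivAt_const p.2 p.1) h1
  simpa using h2

/-- the derivative of a function which is near `0` equal to another one -/
lemma ev_deriv {v w : ℝ × ℝ → ℝ} (hv : Sm v 0) (h : ∀ᶠ p in 𝓝 (0 : ℝ × ℝ), v p = w p)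
    {w' : ℝ × ℝ → ℝ} (hw : ∀ᶠ p in 𝓝 (0 : ℝ × ℝ), HasDerivAt (fun t => w (p.1, t)) (w' p) p.2) :
    ∀ᶠ p in 𝓝 (0 : ℝ × ℝ), D2 v p = w' p := by
  filter_upwards [hv.ev_differentiableAt, eventually_eventually_nhds.2 h, hw] with p h1 h2 h3
  have h4 : HasDerivAt (fun t => v (p.1, t)) (D2 v (p.1, p.2)) p.2 := hasDerivAt_snd h1
  have h5 : (fun t => v (p.1, t)) =ᶠ[𝓝 p.2] fun t => w (p.1, t) :=
    (tendsto_line p).eventually h2
  exact h4.unique (h3.congr_of_eventuallyEq h5)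

theorem main : S_GER → S_HAD → S_ODD := by
  intro hger hhad U V Q u0 ε hU hV hQ hu0 hε hQ0 hQ1 hVU hUQ
  have hφ : Sm (fun p : ℝ × ℝ => (p.1, Q p)) 0 := (Sm.fst 0).prodMk hQ
  have hφ0 : ((0 : ℝ × ℝ).1, Q 0) = (0 : ℝ × ℝ) := by
    rw [hQ0]
    rfl
  have htφ : Tendsto (fun p : ℝ × ℝ => (p.1, Q p)) (𝓝 0) (𝓝 0) := by
    have := hφ.continuousAt.tendsto
    rwa [hφ0] at this
  have hv : Sm (fun p : ℝ × ℝ => V (p.1, Q p)) 0 := by
    have h : Sm V ((0 : ℝ × ℝ).1, Q 0) := by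
      rw [hφ0]
      exact hV
    exact Sm.comp (g := V) (f := fun p : ℝ × ℝ => (p.1, Q p)) (a := 0) h hφ
  have hu : Sm (fun p : ℝ × ℝ => U (p.1, Q p)) 0 := by
    have h : Sm U ((0 : ℝ × ℝ).1, Q 0) := by
      rw [hφ0]
      exact hU
    exact Sm.comp (g := U) (f := fun p : ℝ × ℝ => (p.1, Q p)) (a := 0) h hφ
  -- the derivative of `v`
  have e1 : ∀ᶠ p in 𝓝 (0 : ℝ × ℝ), D2 (fun p : ℝ × ℝ => V (p.1, Q p)) p =
      D2 V (p.1, Q p) * D2 Q p := by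
    refine ev_deriv hv (Eventually.of_forall fun _ => rfl) ?_
    filter_upwards [htφ.eventually hV.ev_differentiableAt, hQ.ev_differentiableAt] with p h1 h2
    have h3 : HasDerivAt (fun t => Q (p.1, t)) (D2 Q (p.1, p.2)) p.2 := hasDerivAt_snd h2
    have h4 := hasDerivAt_pair (f := V) (g := fun _ => p.1) (h := fun t => Q (p.1, t)) h1
      (hasDerivAt_const p.2 p.1) h3
    simpa using h4
  have e2 : ∀ᶠ p in 𝓝 (0 : ℝ × ℝ), D2 (fun p : ℝ × ℝ => U (p.1, Q p)) p =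
      D2 U (p.1, Q p) * D2 Q p := by
    refine ev_deriv hu (Eventually.of_forall fun _ => rfl) ?_
    filter_upwards [htφ.eventually hU.ev_differentiableAt, hQ.ev_differentiableAt] with p h1 h2
    have h3 : HasDerivAt (fun t => Q (p.1, t)) (D2 Q (p.1, p.2)) p.2 := hasDerivAt_snd h2
    have h4 := hasDerivAt_pair (f := U) (g := fun _ => p.1) (h := fun t => Q (p.1, t)) h1
      (hasDerivAt_const p.2 p.1) h3
    simpa using h4
  have e3 : ∀ᶠ p in 𝓝 (0 : ℝ × ℝ), D2 (fun p : ℝ × ℝ => U (p.1, Q p)) p = ε * (2 * p.2) := by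
    refine ev_deriv hu hUQ (Eventually.of_forall fun p => ?_)
    have h1 : HasDerivAt (fun t : ℝ => t ^ 2) (2 * p.2) p.2 := by simpa using hasDerivAt_pow 2 p.2
    simpa using (h1.const_mul ε).const_add (u0 p.1)
  have e4 : ∀ᶠ p in 𝓝 (0 : ℝ × ℝ), D2 (fun p : ℝ × ℝ => V (p.1, Q p)) p =
      -(2 * ε * p.2 * Q p) := by
    filter_upwards [e1, e2, e3, htφ.eventually hVU] with p h1 h2 h3 h4
    rw [h1, h4]
    have h5 : D2 U (p.1, Q p) * D2 Q p = ε * (2 * p.2) := h2.symm.trans h3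
    calc -Q p * D2 U (p.1, Q p) * D2 Q p = -Q p * (D2 U (p.1, Q p) * D2 Q p) := by ring
      _ = _ := by rw [h5]; ring
  -- the decomposition
  obtain ⟨A, B0, hA, hB0, hdec⟩ := hger _ hv
  have e5 : ∀ᶠ p in 𝓝 (0 : ℝ × ℝ), D2 (fun p : ℝ × ℝ => V (p.1, Q p)) p =
      D2 A (p.1, p.2 ^ 2) * (2 * p.2) + (B0 (p.1, p.2 ^ 2) +
        p.2 * (D2 B0 (p.1, p.2 ^ 2) * (2 * p.2))) := by
    refine ev_deriv hv hdec ?_
    filter_upwards [ev_sq hA, ev_sq hB0] with p h1 h2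
    have h3 := h1.add ((hasDerivAt_id p.2).mul h2)
    refine h3.congr_deriv ?_
    simp
  have e6 : ∀ᶠ s in 𝓝 (0 : ℝ), B0 (s, 0) = 0 := by
    have h0 : Tendsto (fun s : ℝ => (s, (0 : ℝ))) (𝓝 0) (𝓝 0) := by
      have h : Continuous fun s : ℝ => (s, (0 : ℝ)) := by fun_prop
      exact h.tendsto 0
    filter_upwards [h0.eventually e4, h0.eventually e5] with s h1 h2
    rw [h1] at h2
    simp only [mul_zero, zero_mul, neg_zero, zero_add, add_zero] at h2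
    have h3 : ((0 : ℝ) ^ 2) = 0 := by norm_num
    rw [h3] at h2
    exact h2.symm
  obtain ⟨B, hB, hBB⟩ := hhad B0 hB0 e6
  have hdec2 : ∀ᶠ p in 𝓝 (0 : ℝ × ℝ),
      V (p.1, Q p) = A (p.1, p.2 ^ 2) + p.2 ^ 3 * B (p.1, p.2 ^ 2) := by
    filter_upwards [hdec, tendsto_sq.eventually hBB] with p h1 h2
    rw [h1, h2]
    ring
  refine ⟨A, B, hA, hB, ?_, hdec2⟩
  -- the value at `0`
  have e7 : ∀ᶠ p in 𝓝 (0 : ℝ × ℝ), D2 (fun p : ℝ × ℝ => V (p.1, Q p)) p =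
      D2 A (p.1, p.2 ^ 2) * (2 * p.2) + (3 * p.2 ^ 2 * B (p.1, p.2 ^ 2) +
        p.2 ^ 3 * (D2 B (p.1, p.2 ^ 2) * (2 * p.2))) := by
    refine ev_deriv hv hdec2 ?_
    filter_upwards [ev_sq hA, ev_sq hB] with p h1 h2
    have h3 := h1.add ((hasDerivAt_pow 3 p.2).mul h2)
    refine h3.congr_deriv ?_
    simp
  have h0 : Tendsto (fun t : ℝ => ((0 : ℝ), t)) (𝓝 0) (𝓝 0) := tendsto_line (0 : ℝ × ℝ)
  have e8 : ∀ᶠ t in 𝓝 (0 : ℝ), t * (-(2 * ε) * Q (0, t)) = t * (2 * D2 A (0, t ^ 2) +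
      3 * t * B (0, t ^ 2) + 2 * t ^ 3 * D2 B (0, t ^ 2)) := by
    filter_upwards [h0.eventually e4, h0.eventually e7] with t h1 h2
    rw [h1] at h2
    linear_combination h2
  have z2 : ((0 : ℝ), (0 : ℝ) ^ 2) = (0 : ℝ × ℝ) := by simp
  have hsq : HasDerivAt (fun t : ℝ => t ^ 2) 0 0 := by simpa using hasDerivAt_pow 2 (0 : ℝ)
  have dl : HasDerivAt (fun t : ℝ => -(2 * ε) * Q (0, t)) (-(2 * ε) * D2 Q 0) 0 := by
    have h1 : HasDerivAt (fun t => Q ((0 : ℝ), t)) (D2 Q ((0 : ℝ), (0 : ℝ))) 0 :=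
      hasDerivAt_snd hQ.differentiableAt
    exact h1.const_mul _
  have cmp : ∀ {C : ℝ × ℝ → ℝ}, Sm C 0 → HasDerivAt (fun t : ℝ => C (0, t ^ 2)) 0 0 := by
    intro C hC
    have hd : DifferentiableAt ℝ C ((fun _ : ℝ => (0 : ℝ)) 0, (fun t : ℝ => t ^ 2) 0) := by
      have : (((fun _ : ℝ => (0 : ℝ)) 0, (fun t : ℝ => t ^ 2) 0) : ℝ × ℝ) = 0 := by simp
      rw [this]
      exact hC.differentiableAt
    have h2 := hasDerivAt_pair (f := C) (g := fun _ => (0 : ℝ)) (h := fun t => t ^ 2) hd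
      (hasDerivAt_const (0 : ℝ) (0 : ℝ)) hsq
    simpa using h2
  have dr : HasDerivAt (fun t : ℝ => 2 * D2 A (0, t ^ 2) +
      3 * t * B (0, t ^ 2) + 2 * t ^ 3 * D2 B (0, t ^ 2)) (3 * B 0) 0 := by
    have a1 : HasDerivAt (fun t : ℝ => 2 * D2 A (0, t ^ 2)) (2 * 0) 0 := (cmp hA.D2).const_mul 2
    have a2 : HasDerivAt (fun t : ℝ => 3 * t) (3 * 1) 0 := (hasDerivAt_id (0 : ℝ)).const_mul 3
    have a3 := a2.mul (cmp hB)
    have a4 : HasDerivAt (fun t : ℝ => 2 * t ^ 3) (2 * 0) 0 := by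
      have : HasDerivAt (fun t : ℝ => t ^ 3) 0 0 := by simpa using hasDerivAt_pow 3 (0 : ℝ)
      exact this.const_mul 2
    have a5 := a4.mul (cmp hB.D2)
    refine ((a1.add a3).add a5).congr_deriv ?_
    have hz : B (0, 0) = B 0 := rfl
    simp [hz]
  -- equality of the two functions
  have e9 : ∀ᶠ t in 𝓝[≠] (0 : ℝ), -(2 * ε) * Q (0, t) = 2 * D2 A (0, t ^ 2) +
      3 * t * B (0, t ^ 2) + 2 * t ^ 3 * D2 B (0, t ^ 2) := by
    filter_upwards [e8.filter_mono nhdsWithin_le_nhds, self_mem_nhdsWithin] with t h1 h2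
    exact mul_left_cancel₀ h2 h1
  have e10 : -(2 * ε) * Q (0, 0) = 2 * D2 A (0, (0 : ℝ) ^ 2) +
      3 * (0 : ℝ) * B (0, (0 : ℝ) ^ 2) + 2 * (0 : ℝ) ^ 3 * D2 B (0, (0 : ℝ) ^ 2) := by
    have t1 := dl.continuousAt.tendsto.mono_left (nhdsWithin_le_nhds (s := {0}ᶜ))
    have t2 := dr.continuousAt.tendsto.mono_left (nhdsWithin_le_nhds (s := {0}ᶜ))
    exact tendsto_nhds_unique t1 (t2.congr' (by filter_upwards [e9] with t ht using ht.symm))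
  have e11 : (fun t : ℝ => -(2 * ε) * Q (0, t)) =ᶠ[𝓝 0] fun t : ℝ => 2 * D2 A (0, t ^ 2) +
      3 * t * B (0, t ^ 2) + 2 * t ^ 3 * D2 B (0, t ^ 2) := by
    have h1 : ∀ᶠ t in 𝓝 (0 : ℝ), t ∈ ({0}ᶜ : Set ℝ) → -(2 * ε) * Q (0, t) = 2 * D2 A (0, t ^ 2) +
      3 * t * B (0, t ^ 2) + 2 * t ^ 3 * D2 B (0, t ^ 2) := eventually_nhdsWithin_iff.1 e9
    filter_upwards [h1] with t ht
    by_cases h : t = 0
    · subst h
      exact e10
    · exact ht h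
  have e12 : -(2 * ε) * D2 Q 0 = 3 * B 0 := dl.unique (dr.congr_of_eventuallyEq e11)
  intro hB00
  rw [hB00, mul_zero] at e12
  have hε0 : ε ≠ 0 := by rcases hε with h | h <;> rw [h] <;> norm_num
  exact (mul_ne_zero (neg_ne_zero.2 (mul_ne_zero two_ne_zero hε0)) hQ1) e12

end

end Pool.Agent.H81.HC.T.ODD
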