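import Mathlib
import Pool.Agent.H81.HC.Stm

/-!
# Whitney's decomposition into even and odd part, with a parameter
-/

set_option autoImplicit false

open Set Filter Topology MeasureTheory
open scoped ContDiff FourierTransform SchwartzMap

namespace Pool.Agent.H81.HC.T.WHI

noncomputable section

open Pool.Agent.H81.HC

lemma sin_eq {F : ℕ → ℝ → ℝ} (h0 : ∀ k z, HasDerivAt (F k) (F (k + 1) z) z)
    (h2 : ∀ x, F 0 (x ^ 2) = Real.cos x) (x : ℝ) : Real.sin x = -2 * x * F 1 (x ^ 2) := by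
  have h1 : HasDerivAt (fun x : ℝ => F 0 (x ^ 2)) (F 1 (x ^ 2) * (2 * x)) x := by
    have h4 : HasDerivAt (fun x : ℝ => x ^ 2) (2 * x) x := by simpa using hasDerivAt_pow 2 x
    exact (h0 0 (x ^ 2)).comp x h4
  have h3 : HasDerivAt (fun x : ℝ => F 0 (x ^ 2)) (-Real.sin x) x := by
    have h4 : (fun x : ℝ => F 0 (x ^ 2)) = Real.cos := funext h2
    rw [h4]
    exact Real.hasDerivAt_cos x
  have h5 := h1.unique h3
  linarith

lemma integrable_term {F : ℝ → ℝ} (hF : Continuous F) {M : ℝ} (hM : ∀ z, |F z| ≤ M) {u : V2 → ℂ}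
    (hu : Continuous u) (hi : Integrable fun v => ‖u v‖) (a y : ℝ) :
    Integrable fun v : V2 => Complex.exp (2 * Real.pi * Complex.I * a * v 0) *
          (F ((2 * Real.pi * v 1) ^ 2 * y) : ℂ) * u v := by
  have hc : Continuous fun v : V2 => Complex.exp (2 * Real.pi * Complex.I * a * v 0) *
          (F ((2 * Real.pi * v 1) ^ 2 * y) : ℂ) * u v := by
    have h0 : Continuous fun v : V2 => v 0 := by fun_prop
    have h1 : Continuous fun v : V2 => v 1 := by fun_prop
    fun_prop
  refine (hi.const_mul M).mono' hc.aestronglyMeasurable (Eventually.of_forall fun v => ?_)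
  rw [norm_mul, norm_mul, Complex.norm_exp, Complex.norm_real, Real.norm_eq_abs]
  have h3 : (2 * Real.pi * Complex.I * a * v 0 : ℂ).re = 0 := by simp
  rw [h3, Real.exp_zero, one_mul]
  exact mul_le_mul_of_nonneg_right (hM _) (norm_nonneg _)

theorem main : S_KER → S_INT → S_WHI := by
  rintro ⟨F, h0, hb, h2⟩ hint φ hφ hφc
  have hFc : ∀ k, Continuous (F k) := fun k =>
    continuous_iff_continuousAt.2 fun z => (h0 k z).continuousAt
  -- the function on the Euclidean plane
  let e : V2 → ℝ × ℝ := fun v => (v 0, v 1)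
  have he : ContDiff ℝ ∞ e := by
    have h1 : ContDiff ℝ ∞ fun v : V2 => v 0 := by fun_prop
    have h2 : ContDiff ℝ ∞ fun v : V2 => v 1 := by fun_prop
    exact h1.prodMk h2
  let f0 : V2 → ℂ := fun v => (φ (e v) : ℂ)
  have hf0 : ContDiff ℝ ∞ f0 := Complex.ofRealCLM.contDiff.comp (hφ.comp he)
  have hf0c : HasCompactSupport f0 := by
    have h1 : HasCompactSupport fun v => φ (e v) := by
      obtain ⟨R, hR⟩ := hφc.isCompact.isBounded.subset_closedBall 0
      refine HasCompactSupport.of_support_subset_isCompact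
        (isCompact_closedBall (0 : V2) (2 * |R|)) ?_
      intro v hv
      have h2 : e v ∈ tsupport φ := subset_tsupport _ hv
      have h3 := hR h2
      rw [mem_closedBall_zero_iff] at h3 ⊢
      have h4 : |v 0| ≤ |R| := by
        have : ‖(e v).1‖ ≤ ‖e v‖ := norm_fst_le _
        exact (this.trans h3).trans (le_abs_self R)
      have h5 : |v 1| ≤ |R| := by
        have : ‖(e v).2‖ ≤ ‖e v‖ := norm_snd_le _
        exact (this.trans h3).trans (le_abs_self R)
      rw [EuclideanSpace.norm_eq]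
      refine Real.sqrt_le_iff.2 ⟨by positivity, ?_⟩
      rw [Fin.sum_univ_two, Real.norm_eq_abs, Real.norm_eq_abs, sq_abs, sq_abs]
      nlinarith [abs_nonneg (v 0), abs_nonneg (v 1), sq_abs (v 0), sq_abs (v 1), abs_nonneg R]
    have h3 := h1.comp_left (g := fun x : ℝ => (x : ℂ)) (by simp)
    exact h3
  let f : 𝓢(V2, ℂ) := hf0c.toSchwartzMap hf0
  let g : 𝓢(V2, ℂ) := 𝓕 f
  have hg : Continuous g := g.continuous
  have hgm : ∀ n : ℕ, Integrable fun v : V2 => ‖v‖ ^ n * ‖g v‖ := fun n =>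
    g.integrable_pow_mul volume n
  let u1 : V2 → ℂ := fun v => -2 * Complex.I * (2 * Real.pi * v 1) * g v
  have hu1 : Continuous u1 := by
    have h1 : Continuous fun v : V2 => v 1 := by fun_prop
    have h2 : Continuous fun v : V2 => (v 1 : ℂ) := Complex.continuous_ofReal.comp h1
    exact (continuous_const.mul (continuous_const.mul h2)).mul hg
  have hu1m : ∀ n : ℕ, Integrable fun v : V2 => ‖v‖ ^ n * ‖u1 v‖ := by
    intro n
    refine ((hgm (n + 1)).const_mul (4 * Real.pi)).mono'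
      ((continuous_norm.pow n).mul hu1.norm).aestronglyMeasurable
      (Eventually.of_forall fun v => ?_)
    have h1 : ‖u1 v‖ = 4 * Real.pi * |v 1| * ‖g v‖ := by
      simp only [u1, norm_mul, Complex.norm_I, norm_neg, Complex.norm_real, Real.norm_eq_abs,
        Complex.norm_ofNat, abs_of_pos Real.pi_pos]
      ring
    have h2 : |v 1| ≤ ‖v‖ := by
      have := PiLp.norm_apply_le v 1
      simpa using this
    rw [Real.norm_eq_abs, abs_of_nonneg (by positivity), h1]
    have h3 : 0 ≤ ‖v‖ ^ n * (4 * Real.pi) * ‖g v‖ := by positivity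
    calc ‖v‖ ^ n * (4 * Real.pi * |v 1| * ‖g v‖) = (‖v‖ ^ n * (4 * Real.pi) * ‖g v‖) * |v 1| := by
          ring
      _ ≤ (‖v‖ ^ n * (4 * Real.pi) * ‖g v‖) * ‖v‖ := mul_le_mul_of_nonneg_left h2 h3
      _ = _ := by ring
  have hA := hint F h0 hb g hg hgm 0
  have hB := hint F h0 hb u1 hu1 hu1m 1
  refine ⟨fun p => (∫ v : V2, Complex.exp (2 * Real.pi * Complex.I * p.1 * v 0) *
          (F 0 ((2 * Real.pi * v 1) ^ 2 * p.2) : ℂ) * g v).re,
    fun p => (∫ v : V2, Complex.exp (2 * Real.pi * Complex.I * p.1 * v 0) *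
          (F 1 ((2 * Real.pi * v 1) ^ 2 * p.2) : ℂ) * u1 v).re,
    Complex.reCLM.contDiff.comp hA, Complex.reCLM.contDiff.comp hB, fun a t => ?_⟩
  obtain ⟨M0, hM0⟩ := hb 0
  obtain ⟨M1, hM1⟩ := hb 1
  have i0 := integrable_term (hFc 0) hM0 hg (by simpa using hgm 0) a (t ^ 2)
  have i1 := integrable_term (hFc 1) hM1 hu1 (by simpa using hu1m 0) a (t ^ 2)
  let x : V2 := !₂[a, t]
  have hx0 : x 0 = a := rfl
  have hx1 : x 1 = t := rfl
  have hinv : 𝓕⁻ (g : V2 → ℂ) x = f x := by
    have h1 : (g : V2 → ℂ) = 𝓕 (f : V2 → ℂ) := SchwartzMap.fourier_coe f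
    rw [h1]
    exact congrFun (f.continuous.fourierInv_fourier_eq f.integrable
      (by rw [← h1]; exact g.integrable)) x
  have hfx : f x = (φ (a, t) : ℂ) := rfl
  rw [Real.fourierInv_eq', hfx] at hinv
  have hpt : ∀ v : V2, Complex.exp (((2 * Real.pi * inner ℝ v x : ℝ) : ℂ) * Complex.I) • g v =
      Complex.exp (2 * Real.pi * Complex.I * a * v 0) *
          (F 0 ((2 * Real.pi * v 1) ^ 2 * t ^ 2) : ℂ) * g v +
        t * (Complex.exp (2 * Real.pi * Complex.I * a * v 0) *
          (F 1 ((2 * Real.pi * v 1) ^ 2 * t ^ 2) : ℂ) * u1 v) := by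
    intro v
    have h1 : inner ℝ v x = v 0 * a + v 1 * t := by
      rw [PiLp.inner_apply, Fin.sum_univ_two, hx0, hx1]
      simp [mul_comm]
    have h3 : (((2 * Real.pi * inner ℝ v x : ℝ) : ℂ) * Complex.I) =
        2 * Real.pi * Complex.I * a * v 0 + ((2 * Real.pi * v 1 * t : ℝ) : ℂ) * Complex.I := by
      rw [h1]
      push_cast
      ring
    have h4 : (2 * Real.pi * v 1) ^ 2 * t ^ 2 = (2 * Real.pi * v 1 * t) ^ 2 := by ring
    have h5 := sin_eq h0 h2 (2 * Real.pi * v 1 * t)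
    have h6 := h2 (2 * Real.pi * v 1 * t)
    rw [h3, Complex.exp_add, Complex.exp_mul_I, ← Complex.ofReal_cos, ← Complex.ofReal_sin, h4, h5,
      h6, smul_eq_mul]
    simp only [u1]
    push_cast
    ring
  have hsum : (φ (a, t) : ℂ) = (∫ v : V2, Complex.exp (2 * Real.pi * Complex.I * a * v 0) *
          (F 0 ((2 * Real.pi * v 1) ^ 2 * t ^ 2) : ℂ) * g v) +
        t * ∫ v : V2, Complex.exp (2 * Real.pi * Complex.I * a * v 0) *
          (F 1 ((2 * Real.pi * v 1) ^ 2 * t ^ 2) : ℂ) * u1 v := by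
    rw [← hinv, ← integral_const_mul, ← integral_add i0 (i1.const_mul _)]
    exact integral_congr_ae (Eventually.of_forall hpt)
  have h7 := congrArg Complex.re hsum
  rw [Complex.ofReal_re, Complex.add_re, Complex.re_ofReal_mul] at h7
  exact h7

end

end Pool.Agent.H81.HC.T.WHI
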