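import Pool.Agent.H81.HC.Basic

/-! # HC-FIB: inverse function theorem for `(s, q) ↦ (s, T (s, q))` -/

set_option autoImplicit false

open Set Filter Topology
open scoped ContDiff

namespace Pool.Agent.H81.HC.T.FIB

noncomputable section

/-- the linear map `(v, w) ↦ (v, a v + b w)` -/
def lin (a b : ℝ) : ℝ × ℝ →L[ℝ] ℝ × ℝ :=
  (ContinuousLinearMap.fst ℝ ℝ ℝ).prod
    (a • ContinuousLinearMap.fst ℝ ℝ ℝ + b • ContinuousLinearMap.snd ℝ ℝ ℝ)

lemma lin_apply (a b : ℝ) (v : ℝ × ℝ) : lin a b v = (v.1, a * v.1 + b * v.2) := by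
  simp [lin]

/-- it is invertible for `b ≠ 0` -/
def equiv (a b : ℝ) (hb : b ≠ 0) : (ℝ × ℝ) ≃L[ℝ] ℝ × ℝ :=
  ContinuousLinearEquiv.equivOfInverse (lin a b) (lin (-(b⁻¹ * a)) b⁻¹)
    (fun v => by
      rw [lin_apply, lin_apply]
      ext
      · rfl
      · simp only
        field_simp
        ring)
    (fun v => by
      rw [lin_apply, lin_apply]
      ext
      · rfl
      · simp only
        field_simp
        ring)

lemma coe_equiv (a b : ℝ) (hb : b ≠ 0) :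
    ((equiv a b hb : (ℝ × ℝ) ≃L[ℝ] ℝ × ℝ) : ℝ × ℝ →L[ℝ] ℝ × ℝ) = lin a b := rfl

lemma hasFDerivAt_graph {T : ℝ × ℝ → ℝ} {x : ℝ × ℝ} (h : DifferentiableAt ℝ T x) :
    HasFDerivAt (fun x : ℝ × ℝ => (x.1, T x)) (lin (D1 T x) (D2 T x)) x := by
  have h1 := (hasFDerivAt_fst (𝕜 := ℝ) (p := x)).prodMk h.hasFDerivAt
  have h2 : (ContinuousLinearMap.fst ℝ ℝ ℝ).prod (fderiv ℝ T x) = lin (D1 T x) (D2 T x) := by
    refine ContinuousLinearMap.ext fun v => ?_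
    rw [lin_apply, ContinuousLinearMap.prod_apply, fderiv_eq_D]
    rfl
  rwa [h2] at h1

theorem main : S_FIB := by
  intro T hT hT0 hD
  set Φ : ℝ × ℝ → ℝ × ℝ := fun x => (x.1, T x) with hΦ
  have hΦs : Sm Φ 0 := (Sm.fst 0).prodMk hT
  have hΦ0 : Φ 0 = 0 := by simp [hΦ, hT0]
  have hd : HasFDerivAt Φ ((equiv (D1 T 0) (D2 T 0) hD : (ℝ × ℝ) ≃L[ℝ] ℝ × ℝ) :
      ℝ × ℝ →L[ℝ] ℝ × ℝ) 0 := hasFDerivAt_graph hT.differentiableAt
  have hn : (∞ : WithTop ℕ∞) ≠ 0 := by simp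
  set e := hΦs.contDiffAt.toOpenPartialHomeomorph Φ hd hn with he
  have hcoe : (e : ℝ × ℝ → ℝ × ℝ) = Φ := rfl
  have h0s : (0 : ℝ × ℝ) ∈ e.source := hΦs.contDiffAt.mem_toOpenPartialHomeomorph_source hd hn
  have h0t : (0 : ℝ × ℝ) ∈ e.target := by
    have := hΦs.contDiffAt.image_mem_toOpenPartialHomeomorph_target hd hn
    rwa [hΦ0] at this
  have hs0 : e.symm 0 = 0 := by
    have := e.left_inv h0s
    rwa [hcoe, hΦ0] at this
  have hsc : ContinuousAt e.symm 0 := e.continuousAt_symm h0t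
  have hev1 : ∀ᶠ y in 𝓝 (0 : ℝ × ℝ), y ∈ e.target := e.open_target.mem_nhds h0t
  have hev2 : ∀ᶠ x in 𝓝 (0 : ℝ × ℝ), x ∈ e.source := e.open_source.mem_nhds h0s
  have hpt : ∀ y ∈ e.target, e.symm y = (y.1, (e.symm y).2) ∧ T (e.symm y) = y.2 := by
    intro y hy
    have h3 : Φ (e.symm y) = y := e.right_inv hy
    have h1 : (Φ (e.symm y)).1 = y.1 := congrArg Prod.fst h3
    have h2 : (Φ (e.symm y)).2 = y.2 := congrArg Prod.snd h3
    exact ⟨Prod.ext h1 rfl, h2⟩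
  -- smoothness
  have hsm : Sm e.symm 0 := by
    have hnz : ∀ᶠ x in 𝓝 (0 : ℝ × ℝ), D2 T x ≠ 0 := hT.D2.continuousAt.eventually_ne hD
    have h1 : ∀ᶠ y in 𝓝 (0 : ℝ × ℝ), D2 T (e.symm y) ≠ 0 ∧ ContDiffAt ℝ ∞ T (e.symm y) ∧
        ContDiffAt ℝ ∞ Φ (e.symm y) := by
      have : Tendsto e.symm (𝓝 0) (𝓝 0) := by
        have := hsc.tendsto
        rwa [hs0] at this
      exact this.eventually (hnz.and (hT.and hΦs))
    filter_upwards [h1, hev1] with y ⟨hy1, hy2, hy3⟩ hy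
    refine e.contDiffAt_symm (f₀' := equiv (D1 T (e.symm y)) (D2 T (e.symm y)) hy1) hy ?_ ?_
    · rw [coe_equiv]
      exact hasFDerivAt_graph (hy2.differentiableAt (by simp))
    · exact hy3
  have hW : Sm (fun y => (e.symm y).2) 0 := (Sm.snd (e.symm 0)).comp hsm
  have hW0 : (e.symm 0).2 = 0 := by rw [hs0]; rfl
  have hinv : ∀ᶠ y in 𝓝 (0 : ℝ × ℝ), T (y.1, (e.symm y).2) = y.2 := by
    filter_upwards [hev1] with y hy
    rw [← (hpt y hy).1]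
    exact (hpt y hy).2
  refine ⟨fun y => (e.symm y).2, hW, hW0, hinv, ?_, ?_⟩
  · filter_upwards [hev2] with x hx
    have := e.left_inv hx
    rw [hcoe] at this
    change (e.symm (Φ x)).2 = x.2
    rw [this]
  · -- the derivative
    have h1 : HasDerivAt (fun t : ℝ => (e.symm ((0 : ℝ), t)).2)
        (D2 (fun y => (e.symm y).2) ((0 : ℝ), (0 : ℝ))) 0 :=
      hasDerivAt_snd (f := fun y => (e.symm y).2) hW.differentiableAt
    have h2 : HasDerivAt (fun t : ℝ => T ((0 : ℝ), (e.symm ((0 : ℝ), t)).2))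
        (D1 T ((0 : ℝ), (e.symm ((0 : ℝ), (0 : ℝ))).2) * 0 +
          D2 T ((0 : ℝ), (e.symm ((0 : ℝ), (0 : ℝ))).2) *
            D2 (fun y => (e.symm y).2) ((0 : ℝ), (0 : ℝ))) 0 := by
      refine hasDerivAt_pair (f := T) (g := fun _ => (0 : ℝ))
        (h := fun t : ℝ => (e.symm ((0 : ℝ), t)).2) ?_ (hasDerivAt_const 0 (0 : ℝ)) h1
      have : ((0 : ℝ), (e.symm ((0 : ℝ), (0 : ℝ))).2) = (0 : ℝ × ℝ) := Prod.ext rfl hW0
      simp only [this]
      exact hT.differentiableAt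
    have h3 : (fun t : ℝ => T ((0 : ℝ), (e.symm ((0 : ℝ), t)).2)) =ᶠ[𝓝 0] fun t => t := by
      have hc : Tendsto (fun t : ℝ => ((0 : ℝ), t)) (𝓝 0) (𝓝 (0 : ℝ × ℝ)) :=
        (Continuous.prodMk continuous_const continuous_id).tendsto' _ _ rfl
      exact hc.eventually hinv
    have h4 := (h2.congr_of_eventuallyEq h3.symm).unique (hasDerivAt_id (0 : ℝ))
    have h5 : ((0 : ℝ), (e.symm ((0 : ℝ), (0 : ℝ))).2) = (0 : ℝ × ℝ) := Prod.ext rfl hW0
    rw [h5, mul_zero, zero_add] at h4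
    exact eq_inv_of_mul_eq_one_right h4

end

end Pool.Agent.H81.HC.T.FIB
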